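import Pool.Agent.H374Z.SN.Core

/-!
# From the concatenated digit sequence to the digits of the terms
-/

set_option autoImplicit false

namespace Pool.Agent.H374Z.SN

open Finset Filter

/-- the number of digits of the first `j` terms -/
def SS (b : ℕ) (a : ℕ → ℕ) (j : ℕ) : ℕ := ∑ t ∈ range j, (Nat.digits b (a t)).length

/-- `d` is the concatenation of the digit strings of the terms of `a` -/
def DigitSeq (b : ℕ) (a d : ℕ → ℕ) : Prop :=
  ∀ j i : ℕ, i < (Nat.digits b (a j)).length →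
    d (SS b a j + i) = ((Nat.digits b (a j)).reverse).getD i 0

/-- the block number `t` of length `m` -/
def blk (b : ℕ) (d : ℕ → ℕ) (m t : ℕ) : ℕ := ∑ i ∈ range m, d (m * t + i) * b ^ (m - 1 - i)

/-- the number of occurrences of a block -/
def cnt (b : ℕ) (d : ℕ → ℕ) (m k n : ℕ) : ℕ := ((range n).filter (fun t => blk b d m t = k)).card

theorem SS_succ (b : ℕ) (a : ℕ → ℕ) (j : ℕ) :
    SS b a (j + 1) = SS b a j + (Nat.digits b (a j)).length := sum_range_succ _ _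

theorem len_pos {b : ℕ} {x : ℕ} (hx : 1 ≤ x) : 0 < (Nat.digits b x).length :=
  List.length_pos_iff.2 (Nat.digits_ne_nil_iff_ne_zero.2 (by omega))

theorem le_SS {b : ℕ} {a : ℕ → ℕ} (ha : ∀ j, 1 ≤ a j) (j : ℕ) : j ≤ SS b a j := by
  induction j with
  | zero => exact Nat.zero_le _
  | succ j ih => rw [SS_succ]; have := len_pos (b := b) (ha j); omega

theorem rev_digit {b : ℕ} (hb : 2 ≤ b) (x i : ℕ) (hi : i < (Nat.digits b x).length) :
    ((Nat.digits b x).reverse).getD i 0 = dg b ((Nat.digits b x).length - 1 - i) x := by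
  unfold dg
  rw [← Nat.getD_digits x _ hb, List.getD_eq_getElem _ _ (by simpa using hi),
    List.getElem_reverse, List.getD_eq_getElem _ _ (by omega)]

theorem d_lt {b : ℕ} (hb : 2 ≤ b) {a d : ℕ → ℕ} (ha : ∀ j, 1 ≤ a j) (hd : DigitSeq b a d)
    (x : ℕ) : d x < b := by
  have : ∃ j i, i < (Nat.digits b (a j)).length ∧ x = SS b a j + i := by
    induction x with
    | zero => exact ⟨0, 0, len_pos (ha 0), by simp [SS]⟩
    | succ x ih =>
      obtain ⟨j, i, hi, rfl⟩ := ih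
      by_cases h : i + 1 < (Nat.digits b (a j)).length
      · exact ⟨j, i + 1, h, rfl⟩
      · exact ⟨j + 1, 0, len_pos (ha _), by rw [SS_succ]; omega⟩
  obtain ⟨j, i, hi, rfl⟩ := this
  rw [hd j i hi, rev_digit hb _ _ hi]
  exact dg_lt (by omega) _ _

theorem sum_dg (b m y : ℕ) : ∑ i ∈ range m, dg b i y * b ^ i = y % b ^ m := by
  induction m with
  | zero => simp [Nat.mod_one]
  | succ m ih => rw [sum_range_succ, ih, Nat.mod_pow_succ, mul_comm]; rfl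

theorem blk_lt {b : ℕ} {d : ℕ → ℕ} (hd : ∀ x, d x < b) (m t : ℕ) : blk b d m t < b ^ m := by
  have : ∀ (m : ℕ) (f : ℕ → ℕ), (∀ i, f i < b) → ∑ i ∈ range m, f i * b ^ i < b ^ m := by
    intro m f hf
    induction m with
    | zero => simp
    | succ m ih =>
      rw [sum_range_succ, pow_succ]
      have h1 : (f m + 1) * b ^ m ≤ b * b ^ m := Nat.mul_le_mul_right _ (hf m)
      nlinarith
  have h := this m (fun i => d (m * t + (m - 1 - i))) (fun i => hd _)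
  unfold blk
  rw [← sum_range_reflect]
  refine lt_of_le_of_lt (le_of_eq (sum_congr rfl fun i hi => ?_)) h
  have := mem_range.1 hi
  rw [show m - 1 - (m - 1 - i) = i by omega]

/-- a block inside a term -/
theorem blk_eq {b : ℕ} (hb : 2 ≤ b) {a d : ℕ → ℕ} (hd : DigitSeq b a d) (m t j i s : ℕ)
    (hl : (Nat.digits b (a j)).length = i + m + s) (ht : m * t = SS b a j + i) :
    blk b d m t = a j / b ^ s % b ^ m := by
  rw [← sum_dg, ← sum_range_reflect]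
  unfold blk
  refine sum_congr rfl fun u hu => ?_
  have hu' := mem_range.1 hu
  rw [ht, add_assoc, hd j (i + u) (by omega), rev_digit hb _ _ (by omega), ← dg_add, hl]
  congr 2
  omega

theorem sum_blocks {b : ℕ} {d : ℕ → ℕ} (hd : ∀ x, d x < b) (m : ℕ) (w : ℕ → ℝ) (n : ℕ) :
    ∑ t ∈ range n, w (blk b d m t) = ∑ k ∈ range (b ^ m), w k * cnt b d m k n := by
  rw [← sum_fiberwise_of_maps_to (g := fun t => blk b d m t) (t := range (b ^ m))
    (fun t _ => mem_range.2 (blk_lt hd m t))]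
  refine sum_congr rfl fun k _ => ?_
  rw [sum_congr rfl (fun t ht => by rw [(mem_filter.1 ht).2]), sum_const, nsmul_eq_mul, mul_comm]
  rfl

theorem abs_sum_blocks {b : ℕ} {d : ℕ → ℕ} (hd : ∀ x, d x < b) (m : ℕ) (w : ℕ → ℝ) (τ E : ℝ)
    (hw : ∑ k ∈ range (b ^ m), w k = 0) (hτ : ∀ k < b ^ m, |w k| ≤ τ) (n : ℕ)
    (hE : ∀ k < b ^ m, |(cnt b d m k n : ℝ) - n / (b : ℝ) ^ m| ≤ E) :
    |∑ t ∈ range n, w (blk b d m t)| ≤ (b : ℝ) ^ m * (τ * E) := by
  rw [sum_blocks hd]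
  have : ∑ k ∈ range (b ^ m), w k * cnt b d m k n
      = ∑ k ∈ range (b ^ m), w k * ((cnt b d m k n : ℝ) - n / (b : ℝ) ^ m) := by
    simp only [mul_sub, sum_sub_distrib, ← sum_mul, hw]
    simp
  rw [this]
  refine (abs_sum_le_sum_abs _ _).trans ?_
  calc ∑ k ∈ range (b ^ m), |w k * ((cnt b d m k n : ℝ) - n / (b : ℝ) ^ m)|
      ≤ ∑ _k ∈ range (b ^ m), τ * E := by
        refine sum_le_sum fun k hk => ?_
        have hk' := mem_range.1 hk
        rw [abs_mul]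
        exact mul_le_mul (hτ k hk') (hE k hk') (abs_nonneg _) ((abs_nonneg _).trans (hτ k hk'))
    _ = _ := by simp

theorem run_blocks {b : ℕ} (hb : 2 ≤ b) {a d : ℕ → ℕ} (hd : DigitSeq b a d) (hdb : ∀ x, d x < b)
    (m Λ j₀ j₁ r o τ₀ : ℕ) (hro : r + o = m)
    (hlen : ∀ j, j₀ ≤ j → j < j₁ → (Nat.digits b (a j)).length = m * (Λ + 1))
    (hτ₀ : m * τ₀ = SS b a j₀ + r) (w : ℕ → ℝ) (τ : ℝ) (hτ : ∀ k < b ^ m, |w k| ≤ τ)
    (u : ℕ) (hu : j₀ + u ≤ j₁) : ∀ v, j₀ + u + v ≤ j₁ →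
      |∑ j ∈ Ico (j₀ + u) (j₀ + u + v), FF (b ^ m) w Λ (a j / b ^ o)
        - (∑ t ∈ range (τ₀ + (u + v) * (Λ + 1)), w (blk b d m t)
          - ∑ t ∈ range (τ₀ + u * (Λ + 1)), w (blk b d m t))| ≤ τ * v := by
  have hS : ∀ x, j₀ + x ≤ j₁ → SS b a (j₀ + x) = SS b a j₀ + x * (m * (Λ + 1)) := by
    intro x
    induction x with
    | zero => intro _; simp
    | succ x ih =>
      intro hx
      rw [← add_assoc, SS_succ, ih (by omega), hlen _ (by omega) (by omega)]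
      ring
  intro v
  induction v with
  | zero => intro _; simp
  | succ v ih =>
    intro hv
    have h1 := ih (by omega)
    rw [← add_assoc, sum_Ico_succ_top (by omega),
      show τ₀ + (u + (v + 1)) * (Λ + 1) = τ₀ + (u + v) * (Λ + 1) + Λ + 1 by ring,
      sum_range_succ, sum_range_add]
    have h2 : ∑ x ∈ range Λ, w (blk b d m (τ₀ + (u + v) * (Λ + 1) + x))
        = FF (b ^ m) w Λ (a (j₀ + u + v) / b ^ o) := by
      unfold FF
      rw [← sum_range_reflect]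
      refine sum_congr rfl fun x hx => ?_
      have hx' := mem_range.1 hx
      obtain ⟨y, hy⟩ : ∃ y, Λ = x + y + 1 := ⟨Λ - 1 - x, by omega⟩
      have e1 : Λ - 1 - x = y := by omega
      rw [e1, blk_eq hb hd m _ (j₀ + u + v) (r + m * y) (o + m * x)]
      · unfold dg
        rw [Nat.div_div_eq_div_mul, ← pow_mul, ← pow_add]
      · rw [hlen _ (by omega) (by omega), hy, ← hro]; ring
      · rw [add_assoc j₀, hS (u + v) (by omega), mul_add, mul_add, hτ₀]; ring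
    rw [h2]
    have h3 := hτ _ (blk_lt hdb m (τ₀ + (u + v) * (Λ + 1) + Λ))
    rw [abs_le] at h1 h3 ⊢
    push_cast
    constructor <;> linarith [h1.1, h1.2, h3.1, h3.2]

theorem disc_of_lil (x : ℕ → ℝ) (ε : ℝ) (hε : 0 < ε)
    (h : ∀ᶠ n : ℕ in atTop, |x n| ≤ 2 * Real.sqrt (2 * n * Real.log (Real.log n))) :
    ∀ᶠ n : ℕ in atTop, |x n| ^ 3 ≤ ε * (n : ℝ) ^ 2 := by
  have h1 := (Real.isLittleO_pow_log_id_atTop (n := 3)).bound (c := ε ^ 2 / 512) (by positivity)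
  have h2 := tendsto_natCast_atTop_atTop (R := ℝ).eventually h1
  filter_upwards [h, h2, eventually_ge_atTop 3] with n hn h3 h4
  have hn3 : (3 : ℝ) ≤ n := by exact_mod_cast h4
  have hlog : 1 ≤ Real.log n := by
    rw [Real.le_log_iff_exp_le (by linarith)]
    linarith [Real.exp_one_lt_d9]
  have hll0 : 0 ≤ Real.log (Real.log n) := Real.log_nonneg hlog
  have hll : Real.log (Real.log n) ≤ Real.log n := by
    have := Real.log_le_sub_one_of_pos (show 0 < Real.log n by linarith)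
    linarith
  simp only [id, Real.norm_eq_abs] at h3
  rw [abs_of_nonneg (by positivity), abs_of_nonneg (by positivity)] at h3
  have h5 : |x n| ^ 2 ≤ 8 * n * Real.log n := by
    have h6 : |x n| ^ 2 ≤ (2 * Real.sqrt (2 * n * Real.log (Real.log n))) ^ 2 := by gcongr
    rw [mul_pow, Real.sq_sqrt (by positivity)] at h6
    have h7 : (n : ℝ) * Real.log (Real.log n) ≤ n * Real.log n := by gcongr
    linarith
  apply (abs_le_of_sq_le_sq' _ (by positivity)).2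
  calc (|x n| ^ 3) ^ 2 = (|x n| ^ 2) ^ 3 := by ring
    _ ≤ (8 * n * Real.log n) ^ 3 := by gcongr
    _ = 512 * n ^ 3 * Real.log n ^ 3 := by ring
    _ ≤ 512 * n ^ 3 * (ε ^ 2 / 512 * n) := by gcongr
    _ = (ε * (n : ℝ) ^ 2) ^ 2 := by ring

/-- the hypotheses on the sequence at one scale -/
def Scale (b : ℕ) (a : ℕ → ℕ) (c C κ : ℝ) (g V₁ m N : ℕ) : Prop :=
  ∃ j₀ j₁ V₀ P : ℕ, N ≤ j₀ ∧ N ≤ P ∧ V₁ ≤ V₀ ∧ (V₀ : ℝ) ≤ κ * P ∧
    (∀ j, j₀ ≤ j → j < j₁ → b ^ (m * (V₀ + P + 1) - 1) ≤ a j ∧ a j < b ^ (m * (V₀ + P + 1))) ∧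
    (∀ i j, j₀ ≤ i → i ≤ j → j < j₁ → a i ≤ a j) ∧
    ∀ s₀, m * V₀ < s₀ → s₀ ≤ m * V₀ + m → ∃ M : ℝ, 0 < M ∧ (SS b a j₁ : ℝ) ^ 2 ≤ M ^ 3 ∧
      c * (b : ℝ) ^ (m * (V₀ + P + 1) - s₀) * M ≤ (j₁ - j₀ : ℕ) ∧
      (∀ π, (((Ico j₀ j₁).filter (fun j => a j / b ^ s₀ = π)).card : ℝ) ≤ M) ∧
      ∀ s e, V₁ ≤ s → g * e ≤ s → s + e ≤ s₀ → ∀ π x,
        ((((Ico j₀ j₁).filter (fun j => a j / b ^ s₀ = π)).filter
          (fun j => a j / b ^ s % b ^ e = x)).card : ℝ) ≤ C * M / (b : ℝ) ^ e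

/-- **Main criterion.** -/
theorem not_lil {b : ℕ} (hb : 2 ≤ b) {a d : ℕ → ℕ} (ha : ∀ j, 1 ≤ a j) (hd : DigitSeq b a d)
    (c C κ : ℝ) (g V₁ : ℕ) (hc : 0 < c) (hC : 0 ≤ C) (hκ : 0 ≤ κ) (hV₁ : 2 * (g + 1) ≤ V₁)
    (Hs : ∀ m, 1 ≤ m → ∀ N, Scale b a c C κ g V₁ m N)
    (lil : ∀ m, 1 ≤ m → ∀ k < b ^ m, ∀ᶠ n : ℕ in atTop,
      |(cnt b d m k n : ℝ) - n / (b : ℝ) ^ m| ≤ 2 * Real.sqrt (2 * n * Real.log (Real.log n))) :
    False := by
  have hb' : (1 : ℝ) < b := by exact_mod_cast hb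
  have hdb := d_lt hb ha hd
  obtain ⟨m, hm1, hm2, hm3⟩ : ∃ m : ℕ, 1 ≤ m ∧ 128 / c ≤ (b : ℝ) ^ m ∧
      (64 * (g + 1) / c) ^ 2 * C * κ ≤ (b : ℝ) ^ m := by
    have h1 := tendsto_pow_atTop_atTop_of_one_lt hb'
    exact ((eventually_ge_atTop 1).and ((h1.eventually_ge_atTop _).and
      (h1.eventually_ge_atTop _))).exists
  have hB : (0 : ℝ) < (b : ℝ) ^ m := by positivity
  have hB2 : 2 ≤ b ^ m := hb.trans (Nat.le_self_pow (by omega) b)
  obtain ⟨n₀, hn₀⟩ : ∃ n₀ : ℕ, ∀ n ≥ n₀, ∀ k ∈ range (b ^ m),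
      |(cnt b d m k n : ℝ) - n / (b : ℝ) ^ m| ^ 3 ≤ (1 / (2 * (b : ℝ) ^ m)) ^ 3 * (n : ℝ) ^ 2 := by
    rw [← eventually_atTop, eventually_all_finset]
    intro k hk
    exact disc_of_lil _ _ (by positivity) (lil m hm1 k (mem_range.1 hk))
  obtain ⟨N₁, hN₁⟩ : ∃ N₁ : ℕ, ((V₁ + 2 : ℝ) * 8 / c) ^ 2 < N₁ := exists_nat_gt _
  obtain ⟨j₀, j₁, V₀, P, hj₀, hP, hV, hκP, hlen, hmono, hs⟩ := Hs m hm1 (m * n₀ + N₁ + 1)
  obtain ⟨τ₀, r, hr, hτ₀⟩ : ∃ τ₀ r, r < m ∧ m * τ₀ = SS b a j₀ + r := by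
    refine ⟨(SS b a j₀ + m - 1) / m, m * ((SS b a j₀ + m - 1) / m) - SS b a j₀, ?_, ?_⟩
    · have := Nat.mul_div_le (SS b a j₀ + m - 1) m
      omega
    · have := Nat.lt_mul_div_succ (SS b a j₀ + m - 1) (show 0 < m by omega)
      rw [mul_add, mul_one] at this
      omega
  obtain ⟨o, ho⟩ : ∃ o, r + o = m := ⟨m - r, by omega⟩
  obtain ⟨M, hM, H4, H1, H2, H3⟩ := hs (o + m * V₀) (by omega) (by omega)
  have hdiv : ∀ j V, a j / b ^ o / (b ^ m) ^ V = a j / b ^ (o + m * V) := by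
    intro j V
    rw [Nat.div_div_eq_div_mul, ← pow_mul, ← pow_add]
  have hlen' : ∀ j, j₀ ≤ j → j < j₁ → (Nat.digits b (a j)).length = m * (V₀ + P + 1) := by
    intro j h1 h2
    obtain ⟨h3, h4⟩ := hlen j h1 h2
    have h5 : 0 < m * (V₀ + P + 1) := by positivity
    apply le_antisymm
    · exact (Nat.digits_length_le_iff hb _).2 h4
    · have := (Nat.lt_digits_length_iff hb (a j)).2 h3
      omega
  have hexp : m * (V₀ + P + 1) - (o + m * V₀) = r + m * P := by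
    have : m * (V₀ + P + 1) = o + m * V₀ + (r + m * P) := by rw [mul_add, mul_add]; omega
    omega
  have hSS : ∀ x, j₀ + x ≤ j₁ → SS b a j₀ + x * (m * (V₀ + P + 1)) ≤ SS b a j₁ := by
    intro x hx
    have h1 : ∀ x, j₀ + x ≤ j₁ → SS b a (j₀ + x) = SS b a j₀ + x * (m * (V₀ + P + 1)) := by
      intro x
      induction x with
      | zero => intro _; simp
      | succ x ih =>
        intro hx
        rw [← add_assoc, SS_succ, ih (by omega), hlen' _ (by omega) (by omega)]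
        ring
    rw [← h1 x hx]
    exact sum_le_sum_of_subset (range_mono hx)
  have hE : ∀ x, j₀ + x ≤ j₁ → ∀ k < b ^ m,
      |(cnt b d m k (τ₀ + x * (V₀ + P + 1)) : ℝ) - (τ₀ + x * (V₀ + P + 1) : ℕ) / (b : ℝ) ^ m|
        ≤ M / (2 * (b : ℝ) ^ m) := by
    intro x hx k hk
    have h0 := le_SS (b := b) ha j₀
    have h1 : n₀ ≤ τ₀ := by
      apply Nat.le_of_mul_le_mul_left (c := m) _ (by omega)
      omega
    have h2 := hn₀ (τ₀ + x * (V₀ + P + 1)) (by omega) k (mem_range.2 hk)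
    have h3 : τ₀ + x * (V₀ + P + 1) ≤ SS b a j₁ := by
      have h4 := hSS x hx
      have h5 : m * (τ₀ + x * (V₀ + P + 1)) = SS b a j₀ + x * (m * (V₀ + P + 1)) + r := by
        rw [mul_add, hτ₀]; ring
      by_contra hcon
      have h6 : m * (SS b a j₁ + 1) ≤ m * (τ₀ + x * (V₀ + P + 1)) :=
        Nat.mul_le_mul_left _ (by omega)
      have h7 : SS b a j₁ ≤ m * SS b a j₁ := Nat.le_mul_of_pos_left _ (by omega)
      rw [mul_add, mul_one] at h6
      omega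
    have h4 : ((τ₀ + x * (V₀ + P + 1) : ℕ) : ℝ) ^ 2 ≤ M ^ 3 := by
      refine le_trans ?_ H4
      gcongr
    apply le_of_pow_le_pow_left₀ (n := 3) (by norm_num) (by positivity)
    refine h2.trans ?_
    rw [div_eq_mul_one_div M, mul_pow, mul_comm]
    gcongr
  refine core_z hB2 j₀ j₁ (fun j => a j / b ^ o) (b ^ r) P V₀ V₁ g M c C κ hM hc hC
    (by positivity) (fun i j h1 h2 h3 => Nat.div_le_div_right (hmono i j h1 h2 h3)) ?_ ?_ ?_ ?_ ?_
    hV₁ hV hκP ?_ ?_ ?_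
  · intro j h1 h2
    rw [hdiv, Nat.div_lt_iff_lt_mul (by positivity), ← pow_mul, ← pow_add, ← pow_add]
    refine lt_of_lt_of_le (hlen j h1 h2).2 (le_of_eq ?_)
    congr 1
    rw [mul_add, mul_add]; omega
  · intro ja jb h1 h2 h3 w τ hw hτ
    obtain ⟨u, rfl⟩ := Nat.exists_eq_add_of_le h1
    obtain ⟨v, rfl⟩ := Nat.exists_eq_add_of_le h2
    have e1 := run_blocks hb hd hdb m (V₀ + P) j₀ j₁ r o τ₀ ho hlen' hτ₀ w τ hτ u (by omega) v h3
    have e2 := abs_sum_blocks hdb m w τ _ hw hτ _ (hE (u + v) (by omega))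
    have e3 := abs_sum_blocks hdb m w τ _ hw hτ _ (hE u (by omega))
    have e4 : (b : ℝ) ^ m * (τ * (M / (2 * (b : ℝ) ^ m))) = τ * M / 2 := by field_simp
    rw [e4] at e2 e3
    rw [Nat.add_sub_cancel_left]
    rw [abs_le] at e1 e2 e3 ⊢
    constructor <;> linarith [e1.1, e1.2, e2.1, e2.2, e3.1, e3.2]
  · rw [hexp] at H1
    refine le_trans (le_of_eq ?_) H1
    push_cast
    rw [← pow_mul, ← pow_add]
  · intro π
    simp only [hdiv]
    exact H2 π
  · intro V l h1 h2 h3 π e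
    simp only [hdiv]
    have := H3 (o + m * V) (m * l) (by nlinarith) (by nlinarith) (by nlinarith) π e
    rw [pow_mul, pow_mul] at this
    push_cast
    exact this
  · push_cast
    rw [div_le_iff₀ hc] at hm2
    linarith
  · push_cast
    rw [mul_assoc, ← Real.sqrt_mul (by positivity)]
    have h1 : Real.sqrt (C / (b : ℝ) ^ m * κ) ≤ c / (64 * (g + 1)) := by
      apply Real.sqrt_le_iff.2 ⟨by positivity, ?_⟩
      rw [div_mul_eq_mul_div, div_le_iff₀ hB]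
      have h2 : C * κ = (c / (64 * (g + 1))) ^ 2 * ((64 * (g + 1) / c) ^ 2 * C * κ) := by
        field_simp
      rw [h2]
      gcongr
    calc 4 * ((g : ℝ) + 1) * Real.sqrt (C / (b : ℝ) ^ m * κ)
        ≤ 4 * (g + 1) * (c / (64 * (g + 1))) := by gcongr
      _ = c / 16 := by field_simp; ring
  · have h1 : (V₁ + 2 : ℝ) * 8 / c < Real.sqrt P := by
      apply Real.lt_sqrt_of_sq_lt
      have : (N₁ : ℝ) ≤ P := by exact_mod_cast (by omega : N₁ ≤ P)
      linarith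
    rw [div_lt_iff₀ hc] at h1
    linarith

end Pool.Agent.H374Z.SN
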