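import Pool.Agent.H374Z.SN.VdC
import Pool.Agent.Helper602.MK.J3

/-!
# Upper bounds for the number of primes whose polynomial value has a prescribed block of digits
-/

set_option autoImplicit false

namespace Pool.Agent.H374Z.SN

open Finset Polynomial Pool.Agent.Helper602.MK.BTLib

/-- the Fejer kernel, not normalised -/
noncomputable def fej (W : ℕ) (θ : ℝ) : ℝ := ‖∑ h ∈ range W, ee (h * θ)‖ ^ 2

theorem fej_nonneg (W : ℕ) (θ : ℝ) : 0 ≤ fej W θ := sq_nonneg _

theorem fej_lower (W : ℕ) (hW : 0 < W) (θ : ℝ) (z : ℤ) (h0 : 0 ≤ θ - z) (h1 : θ - z ≤ 1 / W) :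
    ((W / 6 + 1 : ℕ) : ℝ) ^ 2 / 4 ≤ fej (W / 6 + 1) θ := by
  have hW' : (0 : ℝ) < W := by exact_mod_cast hW
  have h2 : ((W / 6 + 1 : ℕ) : ℝ) / 2 ≤ ‖∑ h ∈ range (W / 6 + 1), ee (h * θ)‖ := by
    refine le_trans ?_ (Complex.re_le_norm _)
    rw [Complex.re_sum]
    calc ((W / 6 + 1 : ℕ) : ℝ) / 2 = ∑ _h ∈ range (W / 6 + 1), (1 / 2 : ℝ) := by simp; ring
      _ ≤ _ := by
        refine sum_le_sum fun h hh => ?_
        have h3 : 6 * h ≤ W := by have := mem_range.1 hh; omega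
        have h4 : (6 : ℝ) * h ≤ W := by exact_mod_cast h3
        have h5 : ee (h * θ) = ee (h * (θ - z)) := by
          rw [mul_sub, sub_eq_add_neg, ee_add,
            show -((h : ℝ) * z) = ((-(h * z) : ℤ) : ℝ) by push_cast; ring, ee_int, mul_one]
        rw [h5, ee_re, ← Real.cos_pi_div_three]
        have h6 : (h : ℝ) * (θ - z) ≤ 1 / 6 := by
          calc (h : ℝ) * (θ - z) ≤ h * (1 / W) := by gcongr
            _ ≤ 1 / 6 := by rw [mul_one_div, div_le_div_iff₀ hW' (by norm_num)]; linarith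
        apply Real.cos_le_cos_of_nonneg_of_le_pi
        · have := Real.pi_pos; positivity
        · linarith [Real.pi_pos]
        · nlinarith [Real.pi_pos]
  unfold fej
  calc ((W / 6 + 1 : ℕ) : ℝ) ^ 2 / 4 = (((W / 6 + 1 : ℕ) : ℝ) / 2) ^ 2 := by ring
    _ ≤ _ := by gcongr

theorem fej_sum (S : Finset ℕ) (θ : ℕ → ℝ) (W : ℕ) (E : ℝ) (hE : 0 ≤ E)
    (h : ∀ h : ℤ, h ≠ 0 → |h| < W → ‖∑ n ∈ S, ee (h * θ n)‖ ≤ E) :
    |∑ n ∈ S, fej W (θ n) - W * S.card| ≤ (W : ℝ) ^ 2 * E := by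
  have e1 : ((∑ n ∈ S, fej W (θ n) - W * S.card : ℝ) : ℂ) = ∑ t ∈ range W, ∑ t' ∈ range W,
      (∑ n ∈ S, ee ((((t : ℤ) - t' : ℤ) : ℝ) * θ n) - if t = t' then (S.card : ℂ) else 0) := by
    unfold fej
    push_cast
    simp only [← Complex.mul_conj', map_sum, sum_mul_sum, sum_sub_distrib, sum_ite_eq, ee_sub]
    rw [sum_congr rfl (fun t ht => if_pos ht), sum_const, card_range, nsmul_eq_mul, sum_comm]
    congr 1
    refine sum_congr rfl fun t _ => ?_
    rw [sum_comm]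
    exact sum_congr rfl fun t' _ => sum_congr rfl fun n _ => by congr 1; ring
  rw [← Real.norm_eq_abs, ← Complex.norm_real, e1]
  refine (norm_sum_le _ _).trans ?_
  have h2 : ∀ t ∈ range W, ∀ t' ∈ range W,
      ‖∑ n ∈ S, ee ((((t : ℤ) - t' : ℤ) : ℝ) * θ n) - if t = t' then (S.card : ℂ) else 0‖ ≤ E := by
    intro t ht t' ht'
    split_ifs with htt
    · subst htt
      simp [ee_zero, hE]
    · rw [sub_zero]
      have h3 := mem_range.1 ht
      have h4 := mem_range.1 ht'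
      exact h _ (by omega) (by rw [abs_lt]; constructor <;> omega)
  refine (sum_le_sum fun t ht => (norm_sum_le _ _).trans
    (sum_le_sum fun t' ht' => h2 t ht t' ht')).trans (le_of_eq ?_)
  simp only [sum_const, card_range, nsmul_eq_mul]
  ring

/-- Selberg's sieve for a weighted interval -/
theorem sieve_weighted (b n₀ N R : ℕ) (hb : 1 ≤ b) (hR : 1 ≤ R) (hRn : R < n₀) (w : ℕ → ℝ)
    (hw : ∀ n, 0 ≤ w n) (X E : ℝ) (hX : 0 ≤ X) (hE : 0 ≤ E)
    (h : ∀ q : ℕ, 1 ≤ q → Nat.Coprime q b →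
      |∑ n ∈ (Ico n₀ (n₀ + N)).filter (fun n => q ∣ n), w n - X / q| ≤ E) :
    ∑ n ∈ (Ico n₀ (n₀ + N)).filter Nat.Prime, w n
      ≤ 2 * b * X / Real.log ((R : ℝ) + 1) + E * (R : ℝ) ^ 4 := by
  let s : BoundingSieve :=
    { apSieve 0 b 0 R with
      support := Ico n₀ (n₀ + N), weights := w, weights_nonneg := hw, totalMass := X }
  have hR' : (1 : ℝ) ≤ R := by exact_mod_cast hR
  have h1 : ∑ n ∈ (Ico n₀ (n₀ + N)).filter Nat.Prime, w n ≤ s.siftedSum := by
    unfold BoundingSieve.siftedSum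
    rw [sum_filter]
    refine sum_le_sum fun n hn => ?_
    by_cases hp : n.Prime
    · have hc : Nat.Coprime s.prodPrimes n := by
        change Nat.Coprime (PP b R) n
        rw [Nat.coprime_comm, hp.coprime_iff_not_dvd, prime_dvd_PP hp]
        have := (mem_Ico.1 hn).1
        omega
      rw [if_pos hp, if_pos hc]
    · rw [if_neg hp]
      split_ifs
      · exact hw n
      · exact le_rfl
  have h2 := siftedSum_le_selberg s (R : ℝ) hR' E hE (fun q hq => by
    have hq0 : 0 < q := Nat.pos_of_ne_zero (ne_zero_of_dvd_ne_zero (PP_squarefree b R).ne_zero hq)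
    have := h q hq0 (coprime_of_dvd_PP hq)
    rw [sum_filter] at this
    refine le_trans (le_of_eq ?_) this
    change |(∑ n ∈ Ico n₀ (n₀ + N), if q ∣ n then w n else 0) - (q : ℝ)⁻¹ * X| = _
    rw [div_eq_inv_mul])
  have h3 : Real.log ((R : ℝ) + 1) / (2 * ((b : ℝ) / (Nat.totient b : ℝ))) ≤ selS s R :=
    selS_ge_log (a := 0) (N := 0) (R := R) hb
  have hlog : 0 < Real.log ((R : ℝ) + 1) := Real.log_pos (by linarith)
  have hb' : (0 : ℝ) < b := by exact_mod_cast hb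
  have hphi : (1 : ℝ) ≤ Nat.totient b := by exact_mod_cast Nat.totient_pos.2 hb
  have h4 : s.totalMass / selS s R ≤ 2 * b * X / Real.log ((R : ℝ) + 1) := by
    change X / _ ≤ _
    have h5 : Real.log ((R : ℝ) + 1) / (2 * b) ≤ selS s R := by
      refine le_trans ?_ h3
      have : (b : ℝ) / (Nat.totient b : ℝ) ≤ b := div_le_self hb'.le hphi
      gcongr
    refine (div_le_div_of_nonneg_left hX (by positivity) h5).trans (le_of_eq ?_)
    field_simp
  have h5 : (∑ d ∈ (Nat.divisors s.prodPrimes).filter (fun d : ℕ => (d : ℝ) ≤ R), (s.nu d)⁻¹)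
      ≤ (R : ℝ) ^ 2 := by
    have h6 : (Nat.divisors s.prodPrimes).filter (fun d : ℕ => (d : ℝ) ≤ R) ⊆ Icc 1 R := by
      intro d hd
      rw [mem_filter, Nat.mem_divisors] at hd
      rw [mem_Icc]
      exact ⟨Nat.pos_of_ne_zero (ne_zero_of_dvd_ne_zero hd.1.2 hd.1.1), by exact_mod_cast hd.2⟩
    calc (∑ d ∈ (Nat.divisors s.prodPrimes).filter (fun d : ℕ => (d : ℝ) ≤ R), (s.nu d)⁻¹)
        = ∑ d ∈ (Nat.divisors s.prodPrimes).filter (fun d : ℕ => (d : ℝ) ≤ R), (d : ℝ) := by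
          refine sum_congr rfl fun d _ => ?_
          change ((d : ℝ)⁻¹)⁻¹ = d
          rw [inv_inv]
      _ ≤ ∑ d ∈ Icc 1 R, (d : ℝ) := sum_le_sum_of_subset_of_nonneg h6 (fun _ _ _ => by positivity)
      _ ≤ ∑ d ∈ Icc 1 R, (R : ℝ) := sum_le_sum fun d hd => by exact_mod_cast (mem_Icc.mp hd).2
      _ = (R : ℝ) ^ 2 := by simp; ring
  have h7 : 0 ≤ (∑ d ∈ (Nat.divisors s.prodPrimes).filter (fun d : ℕ => (d : ℝ) ≤ R),
      (s.nu d)⁻¹) := by
    refine sum_nonneg fun d _ => ?_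
    change 0 ≤ ((d : ℝ)⁻¹)⁻¹
    positivity
  have h8 : E * (∑ d ∈ (Nat.divisors s.prodPrimes).filter (fun d : ℕ => (d : ℝ) ≤ R),
      (s.nu d)⁻¹) ^ 2 ≤ E * (R : ℝ) ^ 4 := by
    calc _ ≤ E * ((R : ℝ) ^ 2) ^ 2 := by gcongr
      _ = E * (R : ℝ) ^ 4 := by ring
  linarith

theorem multiples (a N q : ℕ) (hq : 1 ≤ q) : ∃ u n : ℕ, (a ≤ q * u) ∧ n ≤ N ∧
    |(n : ℝ) - N / q| ≤ 1 ∧
    (Ico a (a + N)).filter (fun x => q ∣ x) = (range n).image (fun k => q * (u + k)) := by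
  have key : ∀ a k : ℕ, (a + q - 1) / q ≤ k ↔ a ≤ q * k := by
    intro a k
    rw [← Nat.lt_succ_iff, Nat.div_lt_iff_lt_mul hq, Nat.succ_mul, mul_comm k q]
    omega
  set u := (a + q - 1) / q with hu
  set v := (a + N + q - 1) / q with hv
  have h1 : a ≤ q * u := (key a u).1 le_rfl
  have h2 : a + N ≤ q * v := (key (a + N) v).1 le_rfl
  have h3 : q * u ≤ a + q - 1 := Nat.mul_div_le _ _
  have h4 : q * v ≤ a + N + q - 1 := Nat.mul_div_le _ _
  have huv : u ≤ v := Nat.div_le_div_right (by omega)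
  obtain ⟨n, hn⟩ := Nat.exists_eq_add_of_le huv
  rw [hn, mul_add] at h2 h4
  have hq' : (0 : ℝ) < q := by exact_mod_cast hq
  refine ⟨u, n, h1, ?_, ?_, ?_⟩
  · by_contra hcon
    obtain ⟨n', rfl⟩ : ∃ n', n = n' + 1 := ⟨n - 1, by omega⟩
    have h5 : n' ≤ q * n' := Nat.le_mul_of_pos_left _ hq
    rw [mul_add, mul_one] at h4
    omega
  · have h5 : q * n ≤ N + q := by omega
    have h6 : N ≤ q * n + q := by omega
    have h5' : (q : ℝ) * n ≤ N + q := by exact_mod_cast h5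
    have h6' : (N : ℝ) ≤ q * n + q := by exact_mod_cast h6
    rw [abs_le]
    constructor
    · have : (N : ℝ) / q ≤ n + 1 := by rw [div_le_iff₀ hq']; linarith
      linarith
    · have : (n : ℝ) - 1 ≤ N / q := by rw [le_div_iff₀ hq']; linarith
      linarith
  · ext x
    simp only [mem_filter, mem_Ico, mem_image, mem_range]
    constructor
    · rintro ⟨⟨h5, h6⟩, k, rfl⟩
      have h7 := (key a k).2 h5
      have h8 : k < v := by
        by_contra hcon
        have := (key (a + N) k).1 (not_lt.1 hcon)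
        omega
      exact ⟨k - u, by omega, by rw [Nat.add_sub_cancel' h7]⟩
    · rintro ⟨k, hk, rfl⟩
      refine ⟨⟨(key a _).1 (Nat.le_add_right _ _), ?_⟩, dvd_mul_right _ _⟩
      by_contra hcon
      have := (key (a + N) (u + k)).2 (not_lt.1 hcon)
      omega

/-- the data of an integer-valued polynomial of degree `d + 1` and a base -/
structure PD where
  b : ℕ
  d : ℕ
  D : ℕ
  A : ℕ
  f : ℝ[X]
  g : ℕ → ℕ
  hb : 2 ≤ b
  hD : 0 < D
  hA : 0 < A
  hdeg : f.natDegree ≤ d + 1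
  hlc : f.coeff (d + 1) = A / D
  hg : ∀ n : ℕ, 1 ≤ n → (g n : ℝ) = f.eval (n : ℝ)
  hper : ∀ Q n k : ℕ, 1 ≤ n → g (n + k * (D * Q)) ≡ g n [MOD Q]

namespace PD

variable (P : PD)

theorem expsum (q W κ e' K N : ℕ) (η : ℝ) (hqb : Nat.Coprime q P.b) (hK : 0 < K)
    (h1 : (P.d + 1).factorial * P.A * W * K ^ P.d < P.b ^ e') (h2 : P.D * P.b ^ e' * K ≤ N)
    (h3 : K * P.b ^ κ ≤ N) (hη : 0 < η) (hη1 : η ≤ 1) (hKη : 1 ≤ K * η ^ (2 ^ P.d))
    (h : ℤ) (h0 : h ≠ 0) (hW : |h| ≤ W) (u n : ℕ) (hu : 1 ≤ q * u) (hn : n ≤ N) (θ₀ : ℝ) :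
    ‖∑ k ∈ range n, ee (h * ((P.g (q * (u + k)) : ℝ) / (P.b : ℝ) ^ (e' + κ * P.d) - θ₀))‖
      ≤ 4 * η * N := by
  have hb : (0 : ℝ) < P.b := by exact_mod_cast (by have := P.hb; omega : 0 < P.b)
  have hD : (0 : ℝ) < P.D := by exact_mod_cast P.hD
  let Q : ℝ[X] := C (h / (P.b : ℝ) ^ (e' + κ * P.d)) * P.f.comp (C (q : ℝ) * X)
  have hQ : Q.natDegree ≤ P.d + 1 := by
    rw [natDegree_le_iff_coeff_eq_zero]
    intro m hm
    rw [coeff_C_mul, comp_C_mul_X_coeff,
      coeff_eq_zero_of_natDegree_lt (lt_of_le_of_lt P.hdeg hm), zero_mul, mul_zero]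
  have key := weyl K (P.b ^ κ) N ((P.D * P.b ^ e' : ℕ) : ℝ) hK (by push_cast; positivity)
    (by exact_mod_cast h3) (by exact_mod_cast h2) P.d Q η hQ hη hη1 hKη (by
      intro t ht1 ht2 z
      have e1 : ((P.d + 1).factorial : ℝ) * Q.coeff (P.d + 1) * ((P.b ^ κ : ℕ) : ℝ) ^ P.d * t - z
          = (((P.d + 1).factorial * P.A * h * t * q ^ (P.d + 1) - z * (P.D * P.b ^ e') : ℤ) : ℝ)
            / ((P.D * P.b ^ e' : ℕ) : ℝ) := by
        rw [coeff_C_mul, comp_C_mul_X_coeff, P.hlc]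
        push_cast
        rw [pow_add, pow_mul]
        field_simp
      rw [e1, abs_div, abs_of_pos (a := ((P.D * P.b ^ e' : ℕ) : ℝ)) (by push_cast; positivity)]
      gcongr
      rw [← Int.cast_abs]
      have hne : ((P.d + 1).factorial * P.A * h * t * q ^ (P.d + 1) - z * (P.D * P.b ^ e') : ℤ)
          ≠ 0 := by
        intro hz
        have h4 : ((P.b ^ e' : ℕ) : ℤ) ∣ (P.d + 1).factorial * P.A * h * t * q ^ (P.d + 1) :=
          ⟨z * P.D, by rw [sub_eq_zero.1 hz]; push_cast; ring⟩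
        have h5 : P.b ^ e' ∣ (P.d + 1).factorial * P.A * h.natAbs * t * q ^ (P.d + 1) := by
          have := Int.natAbs_dvd_natAbs.2 h4
          simpa [Int.natAbs_mul, Int.natAbs_pow] using this
        have h6 : P.b ^ e' ∣ (P.d + 1).factorial * P.A * h.natAbs * t :=
          Nat.Coprime.dvd_of_dvd_mul_right (Nat.Coprime.pow _ _ hqb.symm) h5
        have h7 : 0 < (P.d + 1).factorial * P.A * h.natAbs * t := by
          have := P.hA
          have := Int.natAbs_pos.2 h0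
          have := Nat.factorial_pos (P.d + 1)
          positivity
        have h8 := Nat.le_of_dvd h7 h6
        have h9 : h.natAbs ≤ W := by
          have : (h.natAbs : ℤ) ≤ W := by rw [Int.natCast_natAbs]; exact hW
          exact_mod_cast this
        have h10 : (P.d + 1).factorial * P.A * h.natAbs * t
            ≤ (P.d + 1).factorial * P.A * W * K ^ P.d := by gcongr
        omega
      exact_mod_cast Int.one_le_abs hne) u n (by exact_mod_cast hn)
  have e2 : ∑ k ∈ range n, ee (h * ((P.g (q * (u + k)) : ℝ) / (P.b : ℝ) ^ (e' + κ * P.d) - θ₀))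
      = (∑ k ∈ range n, ee (Q.eval ((u : ℝ) + k))) * ee (-(h * θ₀)) := by
    rw [sum_mul]
    refine sum_congr rfl fun k _ => ?_
    rw [← ee_add, P.hg _ (by rw [mul_add]; omega)]
    congr 1
    simp only [Q, eval_mul, eval_C, eval_comp, eval_X]
    push_cast
    ring
  rw [e2, norm_mul, norm_ee, mul_one]
  exact key

theorem cell_lower (s e x n : ℕ) (h : P.g n / P.b ^ s % P.b ^ e = x) :
    ((P.b ^ e / 6 + 1 : ℕ) : ℝ) ^ 2 / 4 ≤
      fej (P.b ^ e / 6 + 1) ((P.g n : ℝ) / (P.b : ℝ) ^ (s + e) - x / (P.b : ℝ) ^ e) := by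
  have hb0 : 0 < P.b := by have := P.hb; omega
  have hb : (0 : ℝ) < P.b := by exact_mod_cast hb0
  have h1 := Nat.div_add_mod (P.g n) (P.b ^ s)
  have h2 := Nat.div_add_mod (P.g n / P.b ^ s) (P.b ^ e)
  have h3 := Nat.mod_lt (P.g n) (pow_pos hb0 s)
  rw [h] at h2
  set z := P.g n / P.b ^ s / P.b ^ e
  set r := P.g n % P.b ^ s
  have h4 : (P.g n : ℝ) = (P.b : ℝ) ^ s * ((P.b : ℝ) ^ e * z + x) + r := by
    rw [← h2] at h1
    exact_mod_cast h1.symm
  have h5 : (P.g n : ℝ) / (P.b : ℝ) ^ (s + e) - x / (P.b : ℝ) ^ e - ((z : ℤ) : ℝ)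
      = r / (P.b : ℝ) ^ (s + e) := by
    rw [h4, pow_add]; push_cast; field_simp; ring
  refine fej_lower _ (pow_pos hb0 e) _ z (by rw [h5]; positivity) ?_
  rw [h5, pow_add]
  push_cast
  rw [div_le_div_iff₀ (by positivity) (by positivity)]
  have : (r : ℝ) ≤ (P.b : ℝ) ^ s := by exact_mod_cast h3.le
  have h6 : (0 : ℝ) < (P.b : ℝ) ^ e := by positivity
  nlinarith

/-- the middle digits: sieve and exponential sums -/
theorem count_mid (s e x κ e' K n₀ N R : ℕ) (η : ℝ) (hse : s + e = e' + κ * P.d) (hK : 0 < K)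
    (h1 : (P.d + 1).factorial * P.A * P.b ^ e * K ^ P.d < P.b ^ e') (h2 : P.D * P.b ^ e' * K ≤ N)
    (h3 : K * P.b ^ κ ≤ N) (hη : 0 < η) (hη1 : η ≤ 1) (hKη : 1 ≤ K * η ^ (2 ^ P.d))
    (hR : 1 ≤ R) (hRn : R < n₀) :
    ((((Ico n₀ (n₀ + N)).filter Nat.Prime).filter
      (fun n => P.g n / P.b ^ s % P.b ^ e = x)).card : ℝ)
      ≤ 48 * P.b * N / ((P.b : ℝ) ^ e * Real.log ((R : ℝ) + 1)) + (4 + 16 * η * N) * (R : ℝ) ^ 4 := by
  have hb0 : 0 < P.b := by have := P.hb; omega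
  have hb : (0 : ℝ) < P.b := by exact_mod_cast hb0
  set W := P.b ^ e / 6 + 1 with hW
  have hW1 : (1 : ℝ) ≤ W := by exact_mod_cast Nat.succ_pos _
  have hW2 : (P.b : ℝ) ^ e ≤ 6 * W := by
    have : P.b ^ e ≤ 6 * W := by omega
    exact_mod_cast this
  let θ : ℕ → ℝ := fun n => (P.g n : ℝ) / (P.b : ℝ) ^ (s + e) - x / (P.b : ℝ) ^ e
  have hR' : (1 : ℝ) ≤ R := by exact_mod_cast hR
  have hlog : 0 < Real.log ((R : ℝ) + 1) := Real.log_pos (by linarith)
  have key := sieve_weighted P.b n₀ N R hb0 hR hRn (fun n => fej W (θ n)) (fun n => fej_nonneg _ _)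
    (W * N) (W + (W : ℝ) ^ 2 * (4 * η * N)) (by positivity) (by positivity) (by
      intro q hq hqb
      obtain ⟨u, n, hu, hn, hnq, hS⟩ := multiples n₀ N q hq
      have hinj : Set.InjOn (fun k => q * (u + k)) (range n) := fun a _ c _ hac => by
        have := Nat.eq_of_mul_eq_mul_left hq hac
        omega
      have h4 := fej_sum ((Ico n₀ (n₀ + N)).filter (fun x => q ∣ x)) θ W (4 * η * N)
        (by positivity) (fun h h0 hh => by
          rw [hS, sum_image hinj]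
          simp only [θ, hse]
          refine P.expsum q (P.b ^ e) κ e' K N η hqb hK h1 h2 h3 hη hη1 hKη h h0 ?_ u n
            (by omega) hn _
          have : 0 < P.b ^ e := pow_pos hb0 e
          omega)
      have h5 : ((Ico n₀ (n₀ + N)).filter (fun x => q ∣ x)).card = n := by
        rw [hS, card_image_of_injOn hinj, card_range]
      rw [h5] at h4
      have h6 : |(W : ℝ) * n - W * N / q| ≤ W := by
        rw [mul_div_assoc, ← mul_sub, abs_mul, abs_of_nonneg (by positivity)]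
        exact mul_le_of_le_one_right (by positivity) hnq
      rw [abs_le] at h4 h6 ⊢
      constructor <;> linarith [h4.1, h4.2, h6.1, h6.2])
  have h4 : ((((Ico n₀ (n₀ + N)).filter Nat.Prime).filter
      (fun n => P.g n / P.b ^ s % P.b ^ e = x)).card : ℝ) * ((W : ℝ) ^ 2 / 4)
      ≤ ∑ n ∈ (Ico n₀ (n₀ + N)).filter Nat.Prime, fej W (θ n) := by
    rw [← nsmul_eq_mul, ← sum_const]
    refine (sum_le_sum fun n hn => P.cell_lower s e x n (mem_filter.1 hn).2).trans ?_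
    exact sum_le_sum_of_subset_of_nonneg (filter_subset _ _) (fun _ _ _ => fej_nonneg _ _)
  refine le_of_mul_le_mul_right ((h4.trans key).trans ?_) (by positivity)
  rw [add_mul _ _ ((W : ℝ) ^ 2 / 4)]
  apply add_le_add
  · rw [div_mul_eq_mul_div, div_le_div_iff₀ hlog (by positivity)]
    calc 2 * P.b * (W * N : ℝ) * ((P.b : ℝ) ^ e * Real.log ((R : ℝ) + 1))
        ≤ 2 * P.b * (W * N : ℝ) * (6 * W * Real.log ((R : ℝ) + 1)) := by gcongr
      _ = _ := by ring
  · have h5 : (W : ℝ) ≤ W ^ 2 := by nlinarith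
    calc (W + (W : ℝ) ^ 2 * (4 * η * N)) * (R : ℝ) ^ 4
        ≤ ((W : ℝ) ^ 2 + (W : ℝ) ^ 2 * (4 * η * N)) * (R : ℝ) ^ 4 := by gcongr
      _ = _ := by ring

/-- all integers of an interval in a cell -/
theorem count_int (s e x K n₀ N : ℕ) (hK : 0 < K) (hn₀ : 1 ≤ n₀)
    (h1 : (P.d + 1).factorial * P.A * P.b ^ e * K ^ P.d < P.b ^ (s + e))
    (h2 : P.D * P.b ^ (s + e) * K ≤ N) (hKη : (P.b ^ e) ^ (2 ^ P.d) ≤ K) :
    (((range N).filter (fun k => P.g (n₀ + k) / P.b ^ s % P.b ^ e = x)).card : ℝ)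
      ≤ 40 * N / (P.b : ℝ) ^ e := by
  have hb0 : 0 < P.b := by have := P.hb; omega
  have hb : (0 : ℝ) < P.b := by exact_mod_cast hb0
  have hbe : (1 : ℝ) ≤ (P.b : ℝ) ^ e := by exact_mod_cast pow_pos hb0 e
  set W := P.b ^ e / 6 + 1 with hW
  have hW1 : (1 : ℝ) ≤ W := by exact_mod_cast Nat.succ_pos _
  have hW2 : (P.b : ℝ) ^ e ≤ 6 * W := by
    have : P.b ^ e ≤ 6 * W := by omega
    exact_mod_cast this
  let θ : ℕ → ℝ := fun k => (P.g (n₀ + k) : ℝ) / (P.b : ℝ) ^ (s + e) - x / (P.b : ℝ) ^ e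
  have h3 := fej_sum (range N) θ W (4 * (1 / (P.b : ℝ) ^ e) * N) (by positivity) (fun h h0 hh => by
    have h4 := P.expsum 1 (P.b ^ e) 0 (s + e) K N (1 / (P.b : ℝ) ^ e) (by simp) hK h1 h2
      (by
        have : 0 < P.D * P.b ^ (s + e) := Nat.mul_pos P.hD (pow_pos hb0 _)
        have := Nat.le_mul_of_pos_left K this
        simp only [pow_zero, mul_one]; omega) (by positivity)
      (by rw [div_le_one (by positivity)]; exact hbe)
      (by
        rw [one_div, inv_pow, ← div_eq_mul_inv, one_le_div (by positivity)]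
        exact_mod_cast hKη) h h0 (by
        have : 0 < P.b ^ e := pow_pos hb0 e
        omega) n₀ N (by omega) le_rfl (x / (P.b : ℝ) ^ e)
    simpa [θ] using h4)
  have h4 : (((range N).filter (fun k => P.g (n₀ + k) / P.b ^ s % P.b ^ e = x)).card : ℝ)
      * ((W : ℝ) ^ 2 / 4) ≤ ∑ k ∈ range N, fej W (θ k) := by
    rw [← nsmul_eq_mul, ← sum_const]
    refine (sum_le_sum fun n hn => P.cell_lower s e x _ (mem_filter.1 hn).2).trans ?_
    exact sum_le_sum_of_subset_of_nonneg (filter_subset _ _) (fun _ _ _ => fej_nonneg _ _)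
  rw [card_range] at h3
  have h5 := (abs_le.1 h3).2
  refine le_of_mul_le_mul_right (h4.trans ?_) (by positivity)
  have h6 : (W : ℝ) * N ≤ 6 * W ^ 2 * N / (P.b : ℝ) ^ e := by
    rw [le_div_iff₀ (by positivity)]
    calc (W : ℝ) * N * (P.b : ℝ) ^ e ≤ W * N * (6 * W) := by gcongr
      _ = _ := by ring
  have h7 : 40 * N / (P.b : ℝ) ^ e * ((W : ℝ) ^ 2 / 4)
      = 6 * W ^ 2 * N / (P.b : ℝ) ^ e + (W : ℝ) ^ 2 * (4 * (1 / (P.b : ℝ) ^ e) * N) := by
    field_simp; ring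
  linarith

end PD

theorem totient_mul_pow (a b k : ℕ) (hb : 0 < b) (h : b ∣ a) :
    Nat.totient (a * b ^ k) = Nat.totient a * b ^ k := by
  induction k with
  | zero => simp
  | succ k ih =>
    have h1 := Nat.totient_gcd_mul_totient_mul (a * b ^ k) b
    rw [Nat.gcd_eq_right (h.mul_right _), ih] at h1
    have h2 : 0 < Nat.totient b := Nat.totient_pos.2 hb
    apply Nat.eq_of_mul_eq_mul_left h2
    rw [pow_succ, ← mul_assoc a, h1]
    ring

theorem div_totient_le (D b t : ℕ) (hD : 0 < D) (hb : 0 < b) :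
    ((D * b ^ t : ℕ) : ℝ) / Nat.totient (D * b ^ t) ≤ D * b := by
  have h0 : 0 < Nat.totient (D * b ^ t) := Nat.totient_pos.2 (by positivity)
  rw [div_le_iff₀ (by exact_mod_cast h0)]
  have : D * b ^ t ≤ D * b * Nat.totient (D * b ^ t) := by
    rcases t with _ | t
    · rw [mul_assoc, pow_zero]
      exact Nat.mul_le_mul_left _ (Nat.mul_pos hb (by simpa using h0))
    · have h1 := totient_mul_pow (D * b) b t hb (dvd_mul_left _ _)
      have h2 : 0 < Nat.totient (D * b) := Nat.totient_pos.2 (by positivity)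
      rw [show D * b ^ (t + 1) = D * b * b ^ t by ring, h1]
      exact Nat.mul_le_mul_left _ (Nat.le_mul_of_pos_left _ h2)
  exact_mod_cast this

theorem card_filter_mul (Q U : ℕ) (p : ℕ → Prop) [DecidablePred p] :
    (((range (Q * U)).filter p).card : ℝ)
      = ∑ r ∈ range Q, (((range U).filter (fun k => p (r + k * Q))).card : ℝ) := by
  have h1 : ∀ (N : ℕ) (p : ℕ → Prop) [DecidablePred p], (((range N).filter p).card : ℝ)
      = ∑ c ∈ range N, if p c then (1 : ℝ) else 0 := by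
    intro N p _; simp
  simp only [h1]
  rw [sum_comm]
  induction U with
  | zero => simp
  | succ U ih =>
    rw [Nat.mul_succ, sum_range_add, ih, sum_range_succ]
    congr 1
    exact sum_congr rfl fun r _ => by rw [mul_comm, add_comm]

theorem bt22 : ∃ C : ℝ, 1 ≤ C ∧ ∀ (a q N : ℕ), 1 ≤ q → 2 ≤ N →
    (((Finset.range N).filter (fun k => (a + k * q).Prime)).card : ℝ) ≤
      C * ((q : ℝ) / (Nat.totient q : ℝ)) * N / Real.log N := brun_titchmarsh

/-- the constant in the Brun-Titchmarsh inequality -/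
noncomputable def cBT : ℝ := bt22.choose

theorem one_le_cBT : 1 ≤ cBT := bt22.choose_spec.1

theorem bt (a q N : ℕ) (hq : 1 ≤ q) (hN : 2 ≤ N) :
    (((Finset.range N).filter (fun k => (a + k * q).Prime)).card : ℝ) ≤
      cBT * ((q : ℝ) / (Nat.totient q : ℝ)) * N / Real.log N := bt22.choose_spec.2 a q N hq hN

theorem card_Ico_filter (n₀ N : ℕ) (p : ℕ → Prop) [DecidablePred p] :
    ((Ico n₀ (n₀ + N)).filter p).card = ((range N).filter (fun k => p (n₀ + k))).card := by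
  simp only [card_filter]
  rw [sum_Ico_eq_sum_range, Nat.add_sub_cancel_left]

theorem bt_interval (n₀ N : ℕ) (hN : 2 ≤ N) :
    (((Ico n₀ (n₀ + N)).filter Nat.Prime).card : ℝ) ≤ cBT * N / Real.log N := by
  have := bt n₀ 1 N le_rfl hN
  rw [card_Ico_filter]
  simpa using this

/-- the low digits: the Brun-Titchmarsh inequality in arithmetic progressions -/
theorem PD.count_low (P : PD) (s e x K n₀ N U : ℕ) (hK : 0 < K) (hn₀ : 1 ≤ n₀) (hU : 2 ≤ U)
    (hKU : K ≤ U) (hN : N ≤ P.D * P.b ^ (s + e) * U)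
    (h1 : (P.d + 1).factorial * P.A * P.b ^ e * K ^ P.d < P.b ^ (s + e))
    (hKη : (P.b ^ e) ^ (2 ^ P.d) ≤ K) :
    ((((Ico n₀ (n₀ + N)).filter Nat.Prime).filter
      (fun n => P.g n / P.b ^ s % P.b ^ e = x)).card : ℝ)
      ≤ cBT * (P.D * P.b) / Real.log U * (40 * (P.D * P.b ^ (s + e) * U : ℕ) / (P.b : ℝ) ^ e) := by
  have hb0 : 0 < P.b := by have := P.hb; omega
  set Q := P.D * P.b ^ (s + e) with hQ
  have hQ0 : 0 < Q := Nat.mul_pos P.hD (pow_pos hb0 _)
  have hlog : 0 < Real.log U := Real.log_pos (by exact_mod_cast hU)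
  have hC := one_le_cBT
  have hper : ∀ r k, P.g (n₀ + (r + k * Q)) / P.b ^ s % P.b ^ e
      = P.g (n₀ + r) / P.b ^ s % P.b ^ e := by
    intro r k
    have h2 : P.g (n₀ + r + k * Q) % P.b ^ (s + e) = P.g (n₀ + r) % P.b ^ (s + e) :=
      P.hper (P.b ^ (s + e)) (n₀ + r) k (by omega)
    rw [← Nat.mod_mul_right_div_self, ← Nat.mod_mul_right_div_self, ← pow_add, ← add_assoc, h2]
  have a1 : ((((Ico n₀ (n₀ + N)).filter Nat.Prime).filter
      (fun n => P.g n / P.b ^ s % P.b ^ e = x)).card : ℝ)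
      ≤ ((range (Q * U)).filter (fun k => (n₀ + k).Prime ∧
        P.g (n₀ + k) / P.b ^ s % P.b ^ e = x)).card := by
    rw [filter_filter, ← card_Ico_filter n₀ (Q * U)
      (fun n => n.Prime ∧ P.g n / P.b ^ s % P.b ^ e = x)]
    exact_mod_cast card_le_card (filter_subset_filter _ (Ico_subset_Ico_right (by omega)))
  have a2 := P.count_int s e x K n₀ (Q * U) hK hn₀ h1 (Nat.mul_le_mul_left _ hKU) hKη
  refine a1.trans (le_trans ?_ (mul_le_mul_of_nonneg_left a2 (by positivity)))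
  rw [card_filter_mul, card_filter_mul, mul_sum]
  refine sum_le_sum fun r _ => ?_
  simp only [hper]
  by_cases hc : P.g (n₀ + r) / P.b ^ s % P.b ^ e = x
  · simp only [hc, and_true, filter_true, card_range]
    have a3 := bt (n₀ + r) Q U hQ0 hU
    simp only [add_assoc] at a3
    refine a3.trans ?_
    have a4 := div_totient_le P.D P.b (s + e) P.hD hb0
    rw [div_mul_eq_mul_div]
    gcongr
  · simp [hc]

end Pool.Agent.H374Z.SN
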