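import Pool.Agent.H374Z.SN.Mom

/-!
# The core inequality

A monotone sequence of integers whose lower digits are spread out (up to a constant factor) cannot
have small digit discrepancy on every subinterval: the leading digits are constant on long runs.
-/

set_option autoImplicit false

namespace Pool.Agent.H374Z.SN

open Finset

/-- one chunk of digits -/
theorem chunk_bound {B : ℕ} (hB : 0 < B) (J : Finset ℕ) (z : ℕ → ℕ) (w : ℕ → ℝ) (τ M C : ℝ)
    (hτ : 0 ≤ τ) (hM : 0 ≤ M) (hC : 0 ≤ C) (hw : ∑ k ∈ range B, w k = 0)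
    (hw2 : ∑ k ∈ range B, w k ^ 2 = τ ^ 2) (hJ : (J.card : ℝ) ≤ M) (l : ℕ)
    (hcell : ∀ c, ((J.filter (fun j => z j % B ^ l = c)).card : ℝ) ≤ C * M / (B : ℝ) ^ l) :
    |∑ j ∈ J, FF B w l (z j)| ≤ M * τ * Real.sqrt (C / B) * Real.sqrt l := by
  have hB' : (0 : ℝ) < B := by exact_mod_cast hB
  have hBl : (0 : ℝ) < (B : ℝ) ^ l := by positivity
  have h1 : ∑ j ∈ J, FF B w l (z j) ^ 2 ≤ C * M * l * τ ^ 2 / B := by
    have h2 : ∑ j ∈ J, FF B w l (z j) ^ 2 = ∑ c ∈ range (B ^ l),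
        ∑ j ∈ J.filter (fun j => z j % B ^ l = c), FF B w l (z j) ^ 2 :=
      (sum_fiberwise_of_maps_to (fun j _ => mem_range.2 (Nat.mod_lt _ (pow_pos hB l))) _).symm
    rw [h2]
    calc ∑ c ∈ range (B ^ l), ∑ j ∈ J.filter (fun j => z j % B ^ l = c), FF B w l (z j) ^ 2
        ≤ ∑ c ∈ range (B ^ l), C * M / (B : ℝ) ^ l * FF B w l c ^ 2 := by
          refine sum_le_sum fun c _ => ?_
          have h3 : ∑ j ∈ J.filter (fun j => z j % B ^ l = c), FF B w l (z j) ^ 2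
              = ∑ j ∈ J.filter (fun j => z j % B ^ l = c), FF B w l c ^ 2 := by
            refine sum_congr rfl fun j hj => ?_
            rw [← FF_mod, (mem_filter.1 hj).2]
          rw [h3, sum_const, nsmul_eq_mul]
          exact mul_le_mul_of_nonneg_right (hcell c) (sq_nonneg _)
      _ = C * M * l * τ ^ 2 / B := by
          rw [← mul_sum, sum_FF_sq hB w hw, hw2]
          field_simp
  have h2 : (∑ j ∈ J, FF B w l (z j)) ^ 2 ≤ M * (C * M * l * τ ^ 2 / B) := by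
    refine sq_sum_le_card_mul_sum_sq.trans ?_
    exact mul_le_mul hJ h1 (sum_nonneg fun _ _ => sq_nonneg _) hM
  apply abs_le_of_sq_le_sq' _ (by positivity) |> abs_le.2
  have h3 : (M * τ * Real.sqrt (C / B) * Real.sqrt l) ^ 2 = M * (C * M * l * τ ^ 2 / B) := by
    rw [mul_pow, mul_pow, Real.sq_sqrt (by positivity), Real.sq_sqrt (by positivity)]
    field_simp
  rw [h3]; exact h2

/-- geometric chunks -/
theorem chunks_bound {B : ℕ} (J : Finset ℕ) (z : ℕ → ℕ) (w : ℕ → ℝ) (A : ℝ) (hA : 0 ≤ A)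
    (g V₁ V₀ : ℕ) (hV₁ : 2 * (g + 1) ≤ V₁)
    (h : ∀ V l, V₁ ≤ V → g * l ≤ V → V + l ≤ V₀ →
      |∑ j ∈ J, FF B w l (z j / B ^ V)| ≤ A * Real.sqrt l) :
    ∀ V, V₁ ≤ V → V ≤ V₀ →
      |∑ j ∈ J, (FF B w V (z j) - FF B w V₁ (z j))| ≤ A * (4 * (g + 1)) * Real.sqrt V := by
  intro V
  induction V using Nat.strong_induction_on with
  | _ V ih =>
    intro h1 h2
    have hg : (1 : ℝ) ≤ 4 * (g + 1) := by
      have : (0 : ℝ) ≤ g := Nat.cast_nonneg g
      linarith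
    obtain ⟨l, hl⟩ : ∃ l, l = V / (g + 1) := ⟨_, rfl⟩
    have hl1 : l * (g + 1) ≤ V := hl ▸ Nat.div_mul_le_self V (g + 1)
    have hl2 : V < (l + 1) * (g + 1) := by
      rw [hl, mul_comm]; exact Nat.lt_mul_div_succ V (Nat.succ_pos g)
    have hl3 : 2 ≤ l := by
      rw [hl, Nat.le_div_iff_mul_le (Nat.succ_pos g)]; omega
    by_cases hc : V₁ + l ≤ V
    · obtain ⟨V', rfl⟩ : ∃ V', V = V' + l := ⟨V - l, by omega⟩
      have i1 := ih V' (by omega) (by omega) (by omega)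
      have i2 := h V' l (by omega) (by nlinarith) h2
      have e : ∑ j ∈ J, (FF B w (V' + l) (z j) - FF B w V₁ (z j))
          = ∑ j ∈ J, (FF B w V' (z j) - FF B w V₁ (z j)) + ∑ j ∈ J, FF B w l (z j / B ^ V') := by
        rw [← sum_add_distrib]
        exact sum_congr rfl fun j _ => by rw [FF_add]; ring
      rw [e]
      refine (abs_add_le _ _).trans ((add_le_add i1 i2).trans ?_)
      have key : 4 * (g + 1) * Real.sqrt V' + Real.sqrt l
          ≤ 4 * (g + 1) * Real.sqrt ((V' + l : ℕ) : ℝ) := by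
        set x := Real.sqrt V' with hx
        set y := Real.sqrt l with hy
        set s := Real.sqrt ((V' + l : ℕ) : ℝ) with hs
        have hx0 : 0 ≤ x := Real.sqrt_nonneg _
        have hy0 : 0 ≤ y := Real.sqrt_nonneg _
        have hs0 : 0 ≤ s := Real.sqrt_nonneg _
        have hx2 : x ^ 2 = V' := Real.sq_sqrt (Nat.cast_nonneg _)
        have hy2 : y ^ 2 = l := Real.sq_sqrt (Nat.cast_nonneg _)
        have hs2 : s ^ 2 = V' + l := by
          rw [hs, Real.sq_sqrt (Nat.cast_nonneg _)]; push_cast; ring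
        set K : ℝ := 4 * (g + 1) with hK
        have hV : (V' : ℝ) ≤ 2 * (g + 1) * l := by
          have : V' ≤ 2 * (g + 1) * l := by nlinarith
          exact_mod_cast this
        have hg0 : (0 : ℝ) ≤ g := Nat.cast_nonneg g
        have hxy : x ≤ (g + 1) * 1.5 * y := by
          apply abs_le_of_sq_le_sq' _ (by positivity) |>.2
          rw [mul_pow, hx2, hy2]
          have : (0 : ℝ) ≤ l := Nat.cast_nonneg l
          nlinarith [mul_nonneg hg0 this, mul_nonneg (mul_nonneg hg0 hg0) this]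
        apply abs_le_of_sq_le_sq' _ (by positivity) |>.2
        have e1 : (K * x + y) ^ 2 = K ^ 2 * x ^ 2 + 2 * K * x * y + y ^ 2 := by ring
        have e2 : (K * s) ^ 2 = K ^ 2 * x ^ 2 + K ^ 2 * y ^ 2 := by
          rw [mul_pow, hs2, hx2, hy2]; ring
        rw [e1, e2]
        have h5 : 2 * K * x * y ≤ 2 * K * ((g + 1) * 1.5 * y) * y := by gcongr
        have h6 : (0 : ℝ) ≤ y ^ 2 := sq_nonneg y
        have h7 : 2 * K * ((g + 1) * 1.5 * y) * y = 12 * (g + 1) ^ 2 * y ^ 2 := by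
          rw [hK]; ring
        have h8 : K ^ 2 * y ^ 2 = 16 * (g + 1) ^ 2 * y ^ 2 := by rw [hK]; ring
        have h9 : y ^ 2 ≤ (g + 1) ^ 2 * y ^ 2 := by nlinarith [mul_nonneg hg0 h6]
        linarith
      calc A * (4 * (g + 1)) * Real.sqrt V' + A * Real.sqrt l
          = A * (4 * (g + 1) * Real.sqrt V' + Real.sqrt l) := by ring
        _ ≤ A * (4 * (g + 1) * Real.sqrt ((V' + l : ℕ) : ℝ)) := by gcongr
        _ = _ := by ring
    · obtain ⟨u, rfl⟩ : ∃ u, V = V₁ + u := ⟨V - V₁, by omega⟩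
      have i2 := h V₁ u le_rfl (by nlinarith) h2
      have e : ∑ j ∈ J, (FF B w (V₁ + u) (z j) - FF B w V₁ (z j))
          = ∑ j ∈ J, FF B w u (z j / B ^ V₁) :=
        sum_congr rfl fun j _ => by rw [FF_add]; ring
      rw [e]
      refine i2.trans ?_
      have h3 : Real.sqrt u ≤ Real.sqrt ((V₁ + u : ℕ) : ℝ) :=
        Real.sqrt_le_sqrt (by exact_mod_cast Nat.le_add_left u V₁)
      have h4 : 0 ≤ Real.sqrt u := Real.sqrt_nonneg _
      calc A * Real.sqrt u = A * 1 * Real.sqrt u := by ring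
        _ ≤ _ := by gcongr

theorem filter_eq_Ico {j₀ j₁ : ℕ} (y : ℕ → ℕ)
    (hy : ∀ i j, j₀ ≤ i → i ≤ j → j < j₁ → y i ≤ y j) (π : ℕ)
    (hne : ((Ico j₀ j₁).filter (fun j => y j = π)).Nonempty) :
    ∃ ja jb, j₀ ≤ ja ∧ ja ≤ jb ∧ jb ≤ j₁ ∧ (Ico j₀ j₁).filter (fun j => y j = π) = Ico ja jb := by
  set S := (Ico j₀ j₁).filter (fun j => y j = π) with hS
  have h1 := mem_filter.1 (S.min'_mem hne)
  have h2 := mem_filter.1 (S.max'_mem hne)
  rw [mem_Ico] at h1 h2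
  refine ⟨S.min' hne, S.max' hne + 1, h1.1.1, (S.min'_le_max' hne).trans (Nat.le_succ _),
    h2.1.2, ?_⟩
  ext j
  constructor
  · intro hj
    exact mem_Ico.2 ⟨S.min'_le j hj, Nat.lt_succ_of_le (S.le_max' j hj)⟩
  · intro hj
    rw [mem_Ico] at hj
    have h3 : j ≤ S.max' hne := Nat.le_of_lt_succ hj.2
    refine mem_filter.2 ⟨mem_Ico.2 ⟨h1.1.1.trans hj.1, lt_of_le_of_lt h3 h2.1.2⟩, ?_⟩
    apply le_antisymm
    · rw [← h2.2]; exact hy _ _ (h1.1.1.trans hj.1) h3 h2.1.2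
    · rw [← h1.2]; exact hy _ _ h1.1.1 hj.1 (lt_of_le_of_lt h3 h2.1.2)

theorem card_small_chi' {B : ℕ} (hB : 2 ≤ B) (n : ℕ) (hn : 0 < n) (R : ℕ) :
    (((range (B ^ n * R)).filter (fun c => chi B n c < n / 4)).card : ℝ)
      ≤ R * ((B : ℝ) ^ n * (32 / B)) := by
  have h1 : ∀ N : ℕ, (((range N).filter (fun c => chi B n c < n / 4)).card : ℝ)
      = ∑ c ∈ range N, if chi B n c < n / 4 then (1 : ℝ) else 0 := by
    intro N; simp
  rw [h1, sum_range_mul']
  have h2 : ∀ c ∈ range R, ∑ k ∈ range (B ^ n),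
      (if chi B n (B ^ n * c + k) < n / 4 then (1 : ℝ) else 0) ≤ (B : ℝ) ^ n * (32 / B) := by
    intro c _
    refine le_trans (le_of_eq ?_) (card_small_chi hB n hn)
    rw [h1]
    refine sum_congr rfl fun k hk => ?_
    rw [← chi_mod, Nat.mul_add_mod, chi_mod]
  refine (sum_le_sum h2).trans ?_
  simp

/-- **The core inequality.** -/
theorem core_z {B : ℕ} (hB : 2 ≤ B) (j₀ j₁ : ℕ) (z : ℕ → ℕ) (R P V₀ V₁ g : ℕ) (M c C κ : ℝ)
    (hM : 0 < M) (hc : 0 < c) (hC : 0 ≤ C) (hR : 0 < R)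
    (hmono : ∀ i j, j₀ ≤ i → i ≤ j → j < j₁ → z i ≤ z j)
    (hz : ∀ j, j₀ ≤ j → j < j₁ → z j / B ^ V₀ < B ^ P * R)
    (H0 : ∀ ja jb, j₀ ≤ ja → ja ≤ jb → jb ≤ j₁ → ∀ (w : ℕ → ℝ) (τ : ℝ),
      ∑ k ∈ range B, w k = 0 → (∀ k < B, |w k| ≤ τ) →
      |∑ j ∈ Ico ja jb, FF B w (V₀ + P) (z j)| ≤ τ * (M + (jb - ja : ℕ)))
    (H1 : c * (R * (B : ℝ) ^ P) * M ≤ (j₁ - j₀ : ℕ))
    (H2 : ∀ π, (((Ico j₀ j₁).filter (fun j => z j / B ^ V₀ = π)).card : ℝ) ≤ M)
    (H3 : ∀ V l, V₁ ≤ V → g * l ≤ V → V + l ≤ V₀ → ∀ π e,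
      ((((Ico j₀ j₁).filter (fun j => z j / B ^ V₀ = π)).filter
        (fun j => z j / B ^ V % B ^ l = e)).card : ℝ) ≤ C * M / (B : ℝ) ^ l)
    (hV₁ : 2 * (g + 1) ≤ V₁) (hV : V₁ ≤ V₀) (hκ : (V₀ : ℝ) ≤ κ * P)
    (n1 : 128 ≤ c * B) (n2 : 4 * (g + 1) * Real.sqrt (C / B) * Real.sqrt κ ≤ c / 16)
    (n3 : (V₁ + 2 : ℝ) < c / 8 * Real.sqrt P) : False := by
  have hB0 : 0 < B := by omega
  have hB' : (0 : ℝ) < B := by exact_mod_cast hB0
  have hP : 0 < P := by
    rcases Nat.eq_zero_or_pos P with h | h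
    · rw [h] at n3
      have : (0 : ℝ) ≤ V₁ := Nat.cast_nonneg _
      simp at n3
      linarith
    · exact h
  let J : ℕ → Finset ℕ := fun π => (Ico j₀ j₁).filter (fun j => z j / B ^ V₀ = π)
  -- a prefix with many terms and a large chi-square statistic
  have hex : ∃ π, c / 2 * M ≤ (J π).card ∧ (P : ℝ) / 4 ≤ chi B P π := by
    by_contra hcon
    push Not at hcon
    have h1 : ((j₁ - j₀ : ℕ) : ℝ) = ∑ π ∈ range (B ^ P * R), ((J π).card : ℝ) := by
      rw [← Nat.card_Ico, card_eq_sum_card_fiberwise (f := fun j => z j / B ^ V₀)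
        (t := range (B ^ P * R))]
      · push_cast; rfl
      · intro j hj
        have := mem_Ico.1 (mem_coe.1 hj)
        exact mem_coe.2 (mem_range.2 (hz j this.1 this.2))
    have h2 : ∀ π ∈ range (B ^ P * R), ((J π).card : ℝ)
        ≤ c / 2 * M + (if chi B P π < P / 4 then M else 0) := by
      intro π _
      by_cases h : c / 2 * M ≤ (J π).card
      · rw [if_pos (hcon π h)]
        have := H2 π
        have h3 : 0 ≤ c / 2 * M := by positivity
        linarith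
      · have : (0 : ℝ) ≤ if chi B P π < P / 4 then M else 0 := by split_ifs <;> linarith
        linarith [not_le.1 h]
    have h3 := sum_le_sum h2
    rw [← h1, sum_add_distrib, ← sum_filter, sum_const, sum_const, card_range, nsmul_eq_mul,
      nsmul_eq_mul] at h3
    have h4 := mul_le_mul_of_nonneg_right (card_small_chi' hB P hP R) hM.le
    have h5 : (32 : ℝ) / B ≤ c / 4 := by
      rw [div_le_div_iff₀ hB' (by norm_num)]; linarith
    have hRB : (0 : ℝ) < R * (B : ℝ) ^ P := by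
      have : (0 : ℝ) < R := by exact_mod_cast hR
      positivity
    have h6 : (R : ℝ) * ((B : ℝ) ^ P * (32 / B)) * M ≤ R * (B : ℝ) ^ P * (c / 4) * M := by
      rw [← mul_assoc]; gcongr
    push_cast at h3
    have h7 : 0 < R * (B : ℝ) ^ P * c * M := by positivity
    nlinarith
  obtain ⟨π, hπ1, hπ2⟩ := hex
  have hne : (J π).Nonempty := by
    rw [← card_pos]
    have : (0 : ℝ) < (J π).card := lt_of_lt_of_le (by positivity) hπ1
    exact_mod_cast this
  obtain ⟨ja, jb, h1, h2, h3, hJ⟩ := filter_eq_Ico (fun j => z j / B ^ V₀)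
    (fun i j hi hij hj => Nat.div_le_div_right (hmono i j hi hij hj)) π hne
  have hJ' : J π = Ico ja jb := hJ
  set w := TT B P π with hw
  set τ := Real.sqrt (chi B P π) with hτ
  have hchi0 : 0 ≤ chi B P π := sum_nonneg fun _ _ => sq_nonneg _
  have hτ2 : τ ^ 2 = chi B P π := Real.sq_sqrt hchi0
  have hτ0 : 0 ≤ τ := Real.sqrt_nonneg _
  have hwτ : ∀ k < B, |w k| ≤ τ := by
    intro k hk
    apply Real.abs_le_sqrt
    exact single_le_sum (f := fun k => TT B P π k ^ 2) (fun _ _ => sq_nonneg _) (mem_range.2 hk)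
  have hτP : Real.sqrt P / 2 ≤ τ := by
    apply Real.le_sqrt_of_sq_le
    rw [div_pow, Real.sq_sqrt (Nat.cast_nonneg _)]
    linarith
  have hcard : ((jb - ja : ℕ) : ℝ) = (J π).card := by rw [hJ', Nat.card_Ico]
  have a0 := H0 ja jb h1 h2 h3 w τ (sum_TT hB0 P π) hwτ
  rw [hcard, ← hJ'] at a0
  have a1 : ∑ j ∈ J π, FF B w (V₀ + P) (z j) = ∑ j ∈ J π, (FF B w V₀ (z j) - FF B w V₁ (z j))
      + ∑ j ∈ J π, FF B w V₁ (z j) + (J π).card * τ ^ 2 := by
    rw [← sum_add_distrib, ← nsmul_eq_mul, ← sum_const, ← sum_add_distrib]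
    refine sum_congr rfl fun j hj => ?_
    rw [FF_add, (mem_filter.1 hj).2, hw, FF_TT hB0, hτ2]
    ring
  have a2 := chunks_bound (B := B) (J π) z w (M * τ * Real.sqrt (C / B)) (by positivity) g V₁ V₀ hV₁
    (fun V l hV1 hV2 hV3 => chunk_bound hB0 (J π) (fun j => z j / B ^ V) w τ M C hτ0 hM.le hC
      (sum_TT hB0 P π) hτ2.symm (H2 π) l (H3 V l hV1 hV2 hV3 π)) V₀ hV le_rfl
  have a3 : |∑ j ∈ J π, FF B w V₁ (z j)| ≤ M * (V₁ * τ) := by
    refine (abs_sum_le_sum_abs _ _).trans ?_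
    calc ∑ j ∈ J π, |FF B w V₁ (z j)| ≤ ∑ _j ∈ J π, V₁ * τ :=
          sum_le_sum fun j _ => abs_FF_le hB0 w τ hwτ V₁ (z j)
      _ = (J π).card * (V₁ * τ) := by simp
      _ ≤ M * (V₁ * τ) := mul_le_mul_of_nonneg_right (H2 π) (by positivity)
  have a4 : Real.sqrt V₀ ≤ Real.sqrt κ * Real.sqrt P := by
    rw [← Real.sqrt_mul' _ (Nat.cast_nonneg P)]
    exact Real.sqrt_le_sqrt hκ
  have hsP : 0 ≤ Real.sqrt P := Real.sqrt_nonneg _
  have a5 : M * τ * Real.sqrt (C / B) * (4 * (g + 1)) * Real.sqrt V₀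
      ≤ M * τ * (c / 16 * Real.sqrt P) := by
    calc M * τ * Real.sqrt (C / B) * (4 * (g + 1)) * Real.sqrt V₀
        ≤ M * τ * Real.sqrt (C / B) * (4 * (g + 1)) * (Real.sqrt κ * Real.sqrt P) := by gcongr
      _ = M * τ * (4 * (g + 1) * Real.sqrt (C / B) * Real.sqrt κ * Real.sqrt P) := by ring
      _ ≤ M * τ * (c / 16 * Real.sqrt P) := by gcongr
  have a6 : ((J π).card : ℝ) ≤ M := H2 π
  rw [a1] at a0
  have b0 := (abs_le.1 a0).2
  have b2 := (abs_le.1 (a2.trans a5)).1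
  have b3 := (abs_le.1 a3).1
  have hτpos : 0 < τ := by
    have : 0 < Real.sqrt P := Real.sqrt_pos.2 (by exact_mod_cast hP)
    linarith
  have b4 : c / 2 * M * (τ * (Real.sqrt P / 2)) ≤ (J π).card * τ ^ 2 := by
    rw [sq]
    gcongr
  have b5 : τ * (M + (J π).card) ≤ τ * (2 * M) := by gcongr; linarith
  have b6 : M * τ * (c / 4 * Real.sqrt P) ≤ M * τ * (2 + V₁ + c / 16 * Real.sqrt P) := by
    nlinarith
  have b7 := le_of_mul_le_mul_left b6 (by positivity)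
  have : 0 ≤ c * Real.sqrt P := by positivity
  linarith

end Pool.Agent.H374Z.SN
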