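import Pool.Agent.H374Z.SN.Regimes
import Pool.Agent.H374Z.SN.Blocks

/-!
# The scales for polynomial values at primes
-/

set_option autoImplicit false

namespace Pool.Agent.H374Z.SN

open Finset Filter

namespace PD

variable {P : PD} {Γ x₀ : ℕ}

/-- choice of the starting point of a run of values of equal length -/
theorem Growth.exists_y (h : P.Growth Γ x₀) (W : ℕ) (hW : ∀ n ≤ x₀, P.g n < W) :
    ∃ y, x₀ < y ∧ y ^ (P.d + 1) ≤ 2 ^ (P.d + 1) * Γ * W ∧ W ≤ Γ * y ^ (P.d + 1) ∧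
      (∀ n < y + y / (2 ^ (2 * P.d + 1) * Γ ^ 2), P.g n < 2 * W) ∧ ∀ n, y ≤ n → W ≤ P.g n := by
  have hΓ := h.1
  have hx := h.2.1
  have hex : ∃ n, x₀ ≤ n ∧ W ≤ P.g n := by
    refine ⟨x₀ + Γ * W, by omega, ?_⟩
    have h1 := (h.2.2 (x₀ + Γ * W) (by omega)).2.2.1
    have h2 : x₀ + Γ * W ≤ (x₀ + Γ * W) ^ (P.d + 1) := Nat.le_self_pow (by omega) _
    exact Nat.le_of_mul_le_mul_left (c := Γ) (by omega) hΓ
  classical
  obtain ⟨y, hy⟩ : ∃ y, y = Nat.find hex := ⟨_, rfl⟩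
  have h1 : x₀ ≤ y ∧ W ≤ P.g y := hy ▸ Nat.find_spec hex
  have h2 : ∀ n < y, P.g n < W := by
    intro n hn
    by_cases hn' : x₀ ≤ n
    · have := Nat.find_min hex (hy ▸ hn)
      push Not at this
      exact this hn'
    · exact hW n (by omega)
  have h3 : x₀ < y := by
    by_contra h3
    have := hW y (by omega)
    omega
  obtain ⟨z, rfl⟩ : ∃ z, y = z + 1 := ⟨y - 1, by omega⟩
  have h4 := h2 z (by omega)
  have h5 : (z + 1) ^ (P.d + 1) ≤ 2 ^ (P.d + 1) * Γ * W := by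
    have h6 := (h.2.2 z (by omega)).2.2.1
    calc (z + 1) ^ (P.d + 1) ≤ (2 * z) ^ (P.d + 1) := Nat.pow_le_pow_left (by omega) _
      _ = 2 ^ (P.d + 1) * z ^ (P.d + 1) := mul_pow _ _ _
      _ ≤ 2 ^ (P.d + 1) * (Γ * W) := by
        gcongr
        exact h6.trans (Nat.mul_le_mul_left _ h4.le)
      _ = _ := by ring
  refine ⟨z + 1, h3, h5, h1.2.trans (h.2.2 _ h1.1).2.2.2, fun n hn => ?_,
    fun n hn => h1.2.trans (h.mono h1.1 hn)⟩
  by_cases hn' : n < z + 1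
  · have := h2 n hn'
    omega
  set Δ := 2 ^ (2 * P.d + 1) * Γ ^ 2 with hΔ
  have hΔ0 : 0 < Δ := by positivity
  obtain ⟨k, rfl⟩ : ∃ k, n = z + k := ⟨n - z, by omega⟩
  have h7 : (z + 1) / Δ ≤ z + 1 := Nat.div_le_self _ _
  have h8 := h.upper (Y := 2 * (z + 1)) (n := z) (by omega) k (by omega)
  have h9 : k * Δ ≤ z + 1 := by
    rw [← Nat.le_div_iff_mul_le hΔ0]; omega
  have h10 : k * (Γ * (2 * (z + 1)) ^ P.d) ≤ W := by
    refine Nat.le_of_mul_le_mul_left (c := Δ) ?_ hΔ0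
    calc Δ * (k * (Γ * (2 * (z + 1)) ^ P.d)) = (k * Δ) * (Γ * (2 * (z + 1)) ^ P.d) := by ring
      _ ≤ (z + 1) * (Γ * (2 * (z + 1)) ^ P.d) := by gcongr
      _ = Γ * 2 ^ P.d * (z + 1) ^ (P.d + 1) := by rw [mul_pow]; ring
      _ ≤ Γ * 2 ^ P.d * (2 ^ (P.d + 1) * Γ * W) := by gcongr
      _ = Δ * W := by rw [hΔ]; ring
  omega

theorem Growth.scale (h : P.Growth Γ x₀) (m : ℕ) (hm : 1 ≤ m) (N : ℕ) :
    Scale P.b (fun j => P.g (Nat.nth Nat.Prime j))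
      (1 / (2 * cBT * Γ * (P.b * Γ) * (2 * ((2 ^ (2 * P.d + 1) * Γ ^ 2 : ℕ) : ℝ)) * (P.LL + 2)))
      P.CC (2 * P.gg) P.gg (2 * (P.gg + 1) + P.cst ^ 2) m N := by
  have hb := P.hb
  have hb0 : 0 < P.b := by omega
  have hb1 : 1 < P.b := by omega
  have hΓ := h.1
  have hx := h.2.1
  set Δ := 2 ^ (2 * P.d + 1) * Γ ^ 2 with hΔ
  have hΔ0 : 0 < Δ := by positivity
  obtain ⟨y₀, hy₀⟩ := primes_lower Δ hΔ0
  set G₀ := ∑ n ∈ range (x₀ + 1), P.g n with hG₀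
  obtain ⟨p, hp⟩ : ∃ p, p = P.b * Γ + 2 ^ (P.d + 1) * Γ + P.cst + P.D + 4 + G₀ + y₀
    + Nat.nth Nat.Prime N + N + (2 * (P.gg + 1) + P.cst ^ 2) + P.d := ⟨_, rfl⟩
  have hG8 : 8 ≤ P.GG := Nat.le_mul_of_pos_right _ (by positivity)
  obtain ⟨Λ, hΛ⟩ : ∃ Λ, Λ = P.aa + P.GG := ⟨_, rfl⟩
  have hLL : P.LL = Λ + 4 := by unfold LL; omega
  have hΛ12 : 12 ≤ Λ := by unfold aa at hΛ; omega
  have hgg : P.gg = (P.d + 1) * (Λ + 4) := by unfold gg; rw [hLL]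
  obtain ⟨K, hK⟩ : ∃ K, P.gg = K + 1 + 1 := ⟨P.gg - 2, by
    have : Λ + 4 ≤ P.gg := by rw [hgg]; exact Nat.le_mul_of_pos_left _ (by omega)
    omega⟩
  obtain ⟨l, hl⟩ : ∃ l, l = m * (p + 1) := ⟨_, rfl⟩
  have hpl : p + 1 ≤ l := hl ▸ Nat.le_mul_of_pos_left _ hm
  have hml : m ≤ l := hl ▸ Nat.le_mul_of_pos_right _ (by omega)
  obtain ⟨Z, hZ⟩ : ∃ Z, Z = P.b ^ l := ⟨_, rfl⟩
  have hlZ : l < Z := hZ ▸ Nat.lt_pow_self hb1
  have hllZ : l * l ≤ Z := (sq_le_two_pow l (by omega)).trans (hZ ▸ Nat.pow_le_pow_left hb l)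
  have hZ0 : 0 < Z := by omega
  have hZpow : ∀ k, Z ^ k = P.b ^ (k * l) := fun k => by rw [hZ, ← pow_mul, mul_comm]
  obtain ⟨L, hL⟩ : ∃ L, L = m * ((K + 1) * (p + 1) + p + 1) := ⟨_, rfl⟩
  have hLl : L = P.gg * l := by rw [hL, hK, hl]; ring
  have hV : m * ((K + 1) * (p + 1)) = (K + 1) * l := by rw [hl]; ring
  have hlL : 2 * l ≤ L := by rw [hLl]; exact Nat.mul_le_mul_right _ (by omega)
  obtain ⟨W, hW⟩ : ∃ W, W = P.b ^ (L - 1) := ⟨_, rfl⟩
  have hbW : P.b * W = P.b ^ L := by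
    rw [hW, ← pow_succ']; congr 1; omega
  have hZW : Z ≤ W := by rw [hZ, hW]; exact Nat.pow_le_pow_right hb0 (by omega)
  have hZL : P.b ^ L = Z ^ P.gg := by rw [hZpow, hLl]
  have hWZ : W ≤ Z ^ P.gg := by rw [← hZL, ← hbW]; exact Nat.le_mul_of_pos_left _ hb0
  obtain ⟨y, y1, y2, y3, y4, y5⟩ := h.exists_y W (fun n hn => by
    have : P.g n ≤ G₀ := single_le_sum (f := P.g) (fun _ _ => Nat.zero_le _)
      (mem_range.2 (by omega))
    omega)
  rw [← hΔ] at y4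
  have y6 : y ^ (P.d + 1) ≤ Z * Z ^ P.gg := y2.trans (Nat.mul_le_mul (by omega) hWZ)
  have y7 : y ≤ Z ^ (Λ + 5) := by
    refine le_of_pow_le_pow_left₀ (n := P.d + 1) (by omega) (Nat.zero_le _) (y6.trans ?_)
    rw [← pow_succ', ← pow_mul, hgg]
    exact Nat.pow_le_pow_right hZ0 (by nlinarith)
  have y8 : P.b ^ L ≤ P.b * Γ * y ^ (P.d + 1) := by
    rw [← hbW, mul_assoc]; exact Nat.mul_le_mul_left _ y3
  have y9 : Z ^ (Λ + 3) ≤ y := by
    refine le_of_pow_le_pow_left₀ (n := P.d + 1) (by omega) (Nat.zero_le _) ?_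
    refine Nat.le_of_mul_le_mul_left (c := Z) ?_ hZ0
    calc Z * (Z ^ (Λ + 3)) ^ (P.d + 1) ≤ Z ^ P.gg := by
          rw [← pow_mul, ← pow_succ', hgg]
          exact Nat.pow_le_pow_right hZ0 (by nlinarith)
      _ ≤ P.b * Γ * y ^ (P.d + 1) := hZL ▸ y8
      _ ≤ Z * y ^ (P.d + 1) := Nat.mul_le_mul_right _ (by omega)
  have hZy : Z < y := lt_of_lt_of_le
    (by simpa using Nat.pow_lt_pow_right (show 1 < Z by omega) (show 1 < Λ + 3 by omega)) y9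
  have hY : y / Δ ≤ y := Nat.div_le_self _ _
  have h2W : 2 * W ≤ P.b ^ L := by rw [← hbW]; exact Nat.mul_le_mul_right _ hb
  have hlt : ∀ j, j < Nat.count Nat.Prime (y + y / Δ) → Nat.nth Nat.Prime j < y + y / Δ :=
    fun j hj => Nat.nth_lt_of_lt_count hj
  have hge : ∀ j, Nat.count Nat.Prime y ≤ j → y ≤ Nat.nth Nat.Prime j :=
    fun j hj => (Nat.count_le_iff_le_nth Nat.infinite_setOfPred_prime).1 hj
  refine ⟨Nat.count Nat.Prime y, Nat.count Nat.Prime (y + y / Δ), (K + 1) * (p + 1), p,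
    ?_, by omega, ?_, ?_, ?_, ?_, ?_⟩
  · have : Nat.nth Nat.Prime N ≤ y := by omega
    rw [← Nat.count_nth_of_infinite Nat.infinite_setOfPred_prime N]
    exact Nat.count_monotone _ this
  · have : p + 1 ≤ (K + 1) * (p + 1) := Nat.le_mul_of_pos_left _ (by omega)
    omega
  · have : (K + 1) * (p + 1) ≤ 2 * P.gg * p := by
      rw [hK]
      have : 1 ≤ p := by omega
      nlinarith
    exact_mod_cast this
  · intro j h1 h2
    rw [← hL, ← hW]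
    exact ⟨y5 _ (hge j h1), (y4 _ (hlt j h2)).trans_le h2W⟩
  · intro i j h1 h2 _
    exact h.mono (y1.le.trans (hge i h1)) (Nat.nth_monotone Nat.infinite_setOfPred_prime h2)
  intro s₀ s1 s2
  rw [← hL]
  rw [hV] at s1 s2
  have s3 : s₀ ≤ L := by rw [hLl, hK, add_mul (K + 1)]; omega
  have s4 : Z ^ (Λ + 1) * y ^ P.d ≤ P.b ^ s₀ := by
    refine le_trans ?_ (Nat.pow_le_pow_right hb0 s1.le)
    rw [← hZpow]
    refine Nat.le_of_mul_le_mul_left (c := Z * Z) ?_ (Nat.mul_pos hZ0 hZ0)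
    calc Z * Z * (Z ^ (Λ + 1) * y ^ P.d) = Z ^ (Λ + 3) * y ^ P.d := by ring
      _ ≤ y * y ^ P.d := by gcongr
      _ = y ^ (P.d + 1) := by ring
      _ ≤ Z * Z ^ P.gg := y6
      _ = _ := by rw [hK]; ring
  have hZ' : (4 : ℝ) ≤ Z := by exact_mod_cast (by omega : 4 ≤ Z)
  have hlog : 0 < Real.log Z := Real.log_pos (by linarith)
  have hlogZ : Real.log Z ≤ Z := (Real.log_le_sub_one_of_pos (by linarith)).trans (by linarith)
  have hC := one_le_cBT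
  have hΓ' : (1 : ℝ) ≤ Γ := by exact_mod_cast hΓ
  have hy' : (0 : ℝ) < y := by exact_mod_cast (by omega : 0 < y)
  have hb' : (0 : ℝ) < P.b := by exact_mod_cast hb0
  have hρ : (Z : ℝ) ^ (Λ + 1) ≤ ((P.b ^ s₀ : ℕ) : ℝ) / (y : ℝ) ^ P.d := by
    rw [le_div_iff₀ (by positivity)]
    exact_mod_cast s4
  refine ⟨2 * cBT * Γ * (((P.b ^ s₀ : ℕ) : ℝ) / (y : ℝ) ^ P.d) / Real.log Z, by positivity,
    ?_, ?_, ?_, ?_⟩
  · have h1 : SS P.b (fun j => P.g (Nat.nth Nat.Prime j)) (Nat.count Nat.Prime (y + y / Δ))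
        ≤ Z ^ (Λ + 6) := by
      have h2 : SS P.b (fun j => P.g (Nat.nth Nat.Prime j)) (Nat.count Nat.Prime (y + y / Δ))
          ≤ Nat.count Nat.Prime (y + y / Δ) * L := by
        unfold SS
        refine (sum_le_card_nsmul _ _ L fun j hj => ?_).trans (by simp)
        rw [Nat.digits_length_le_iff hb1]
        exact (y4 _ (hlt j (mem_range.1 hj))).trans_le h2W
      have h3 : Nat.count Nat.Prime (y + y / Δ) ≤ 2 * y :=
        (Nat.count_le (p := Nat.Prime)).trans (by omega)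
      have h4 : 2 * L ≤ Z := by
        refine le_trans ?_ hllZ
        rw [hLl, ← mul_assoc]
        exact Nat.mul_le_mul_right _ (by omega)
      calc _ ≤ 2 * y * L := h2.trans (Nat.mul_le_mul_right _ h3)
        _ = y * (2 * L) := by ring
        _ ≤ Z ^ (Λ + 5) * Z := Nat.mul_le_mul y7 h4
        _ = _ := by ring
    have h5 : (Z : ℝ) ^ Λ ≤ 2 * cBT * Γ * (((P.b ^ s₀ : ℕ) : ℝ) / (y : ℝ) ^ P.d) / Real.log Z := by
      rw [le_div_iff₀ hlog]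
      calc (Z : ℝ) ^ Λ * Real.log Z ≤ (Z : ℝ) ^ Λ * Z := by gcongr
        _ = 1 * 1 * 1 * (Z : ℝ) ^ (Λ + 1) := by ring
        _ ≤ _ := by gcongr; norm_num
    have h6 : ((SS P.b (fun j => P.g (Nat.nth Nat.Prime j))
        (Nat.count Nat.Prime (y + y / Δ)) : ℕ) : ℝ) ≤ (Z : ℝ) ^ (Λ + 6) := by exact_mod_cast h1
    calc _ ≤ ((Z : ℝ) ^ (Λ + 6)) ^ 2 := by gcongr
      _ ≤ ((Z : ℝ) ^ Λ) ^ 3 := by
        rw [← pow_mul, ← pow_mul]
        exact pow_le_pow_right₀ (by linarith) (by omega)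
      _ ≤ _ := by gcongr
  · rw [count_sub]
    have h1 := hy₀ y (by omega)
    have h2 : Real.log (2 * y) ≤ (P.LL + 2) * Real.log Z := by
      have h3 : 2 * y ≤ Z ^ (P.LL + 2) := by
        rw [hLL]
        calc 2 * y ≤ Z * Z ^ (Λ + 5) := Nat.mul_le_mul (by omega) y7
          _ = _ := by ring
      have h4 : (2 * y : ℝ) ≤ (Z : ℝ) ^ (P.LL + 2) := by exact_mod_cast h3
      refine (Real.log_le_log (by positivity) h4).trans (le_of_eq ?_)
      rw [Real.log_pow]; push_cast; ring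
    set Pi : ℝ := (((Ico y (y + y / Δ)).filter Nat.Prime).card : ℝ)
    have hPi : 0 ≤ Pi := by positivity
    have h3 : (y : ℝ) / (2 * Δ) ≤ Pi * ((P.LL + 2) * Real.log Z) :=
      h1.trans (mul_le_mul_of_nonneg_left h2 hPi)
    have hΔ' : (0 : ℝ) < Δ := by exact_mod_cast hΔ0
    have h4 : (P.b : ℝ) ^ (L - s₀) * ((P.b ^ s₀ : ℕ) : ℝ) ≤ P.b * Γ * (y : ℝ) ^ (P.d + 1) := by
      have : P.b ^ (L - s₀) * P.b ^ s₀ ≤ P.b * Γ * y ^ (P.d + 1) := by
        rw [← pow_add, Nat.sub_add_cancel s3]; exact y8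
      exact_mod_cast this
    calc _ = ((P.b : ℝ) ^ (L - s₀) * ((P.b ^ s₀ : ℕ) : ℝ)) /
          ((P.b * Γ) * (2 * Δ) * (P.LL + 2) * (y : ℝ) ^ P.d * Real.log Z) := by field_simp
      _ ≤ (P.b * Γ * (y : ℝ) ^ (P.d + 1)) /
          ((P.b * Γ) * (2 * Δ) * (P.LL + 2) * (y : ℝ) ^ P.d * Real.log Z) := by gcongr
      _ = (y : ℝ) / (2 * Δ) / ((P.LL + 2) * Real.log Z) := by rw [pow_succ]; field_simp
      _ ≤ Pi := by rw [div_le_iff₀ (by positivity)]; exact h3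
  · intro π
    refine le_trans (Nat.cast_le.2 (card_index_le y (y + y / Δ)
      (fun n => P.g n / P.b ^ s₀ = π))) ?_
    refine h.high y1.le (by omega) (le_trans ?_ s4) _ π fun n hn => ?_
    · exact Nat.mul_le_mul_right _ (Nat.le_self_pow (by omega) _)
    · obtain ⟨h1, h2⟩ := mem_filter.1 hn
      obtain ⟨h3, h4⟩ := mem_filter.1 h1
      exact ⟨(mem_Ico.1 h3).1, h4, h2⟩
  · intro s e e1 e2 e3 π x
    rw [filter_filter]
    refine le_trans (Nat.cast_le.2 (card_index_le y (y + y / Δ)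
      (fun n => P.g n / P.b ^ s₀ = π ∧ P.g n / P.b ^ s % P.b ^ e = x))) ?_
    rw [hZ]
    refine h.cells y1.le (by omega) (by omega) (by omega) (by omega) (by omega) ?_ ?_ s e
      (by omega) e2 e3 π x _ fun n hn => ?_
    · rw [← hZ, show P.aa + 5 + P.GG = Λ + 5 by omega]; exact y7
    · rw [← hZ, show P.aa + 1 + P.GG = Λ + 1 by omega]; exact s4
    · obtain ⟨h1, h2⟩ := mem_filter.1 hn
      obtain ⟨h3, h4⟩ := mem_filter.1 h1
      exact ⟨(mem_Ico.1 h3).1, h4, h2⟩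

end PD

/-- The block counts of the concatenation of the values `g p` violate the upper bound of the law
of the iterated logarithm. -/
theorem PD.not_lil (P : PD) (hg : ∀ n, 1 ≤ n → 1 ≤ P.g n) {d : ℕ → ℕ}
    (hd : DigitSeq P.b (fun j => P.g (Nat.nth Nat.Prime j)) d)
    (lil : ∀ m, 1 ≤ m → ∀ k < P.b ^ m, (∀ᶠ n : ℕ in atTop,
      ((cnt P.b d m k n : ℝ) - n / (P.b : ℝ) ^ m) / Real.sqrt (2 * n * Real.log (Real.log n))
        ≤ Real.sqrt ((P.b : ℝ) ^ m - 1) / (P.b : ℝ) ^ m + 1) ∧ ∀ᶠ n : ℕ in atTop,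
      -(Real.sqrt ((P.b : ℝ) ^ m - 1) / (P.b : ℝ) ^ m) - 1 ≤
      ((cnt P.b d m k n : ℝ) - n / (P.b : ℝ) ^ m) / Real.sqrt (2 * n * Real.log (Real.log n))) :
    False := by
  obtain ⟨Γ, x₀, h⟩ := P.exists_growth
  have hC := one_le_cBT
  have hΓ : (1 : ℝ) ≤ Γ := by exact_mod_cast h.1
  have hΓ0 : 0 < Γ := h.1
  have hb : (2 : ℝ) ≤ P.b := by exact_mod_cast P.hb
  refine SN.not_lil P.hb (fun j => hg _ (Nat.prime_nth_prime j).one_le) hd _ _ _ _ _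
    (by positivity) (by positivity) (by positivity) (Nat.le_add_right _ _) h.scale ?_
  intro m hm k hk
  obtain ⟨h1, h2⟩ := lil m hm k hk
  have hB : (1 : ℝ) ≤ (P.b : ℝ) ^ m := one_le_pow₀ (by linarith)
  have h3 : Real.sqrt ((P.b : ℝ) ^ m - 1) / (P.b : ℝ) ^ m ≤ 1 := by
    rw [div_le_one (by linarith), Real.sqrt_le_left (by linarith)]
    nlinarith
  have h4 : ∀ᶠ n : ℕ in atTop, 1 < Real.log (n : ℝ) :=
    (Real.tendsto_log_atTop.comp tendsto_natCast_atTop_atTop).eventually_gt_atTop 1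
  filter_upwards [h1, h2, h4, eventually_gt_atTop 0] with n a1 a2 a3 a4
  have a5 : 0 < Real.sqrt (2 * n * Real.log (Real.log n)) := by
    have := Real.log_pos a3
    have : (0 : ℝ) < n := by exact_mod_cast a4
    positivity
  rw [div_le_iff₀ a5] at a1
  rw [le_div_iff₀ a5] at a2
  rw [abs_le]
  constructor <;> nlinarith

open Polynomial in
theorem exists_PD (b : ℕ) (hb : 2 ≤ b) (f : ℚ[X]) (hf : 0 < f.degree) (g : ℕ → ℕ)
    (hg : ∀ n : ℕ, 1 ≤ n → (g n : ℚ) = f.eval (n : ℚ)) : ∃ P : PD, P.b = b ∧ P.g = g := by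
  obtain ⟨β, hβ, hq⟩ := IsLocalization.integerNormalization_spec (nonZeroDivisors ℤ) f
  set q := IsLocalization.integerNormalization (nonZeroDivisors ℤ) f
  have hβ0 : β ≠ 0 := nonZeroDivisors.ne_zero hβ
  obtain ⟨D, hD⟩ : ∃ D : ℕ, (D : ℤ) = β * β := ⟨(β * β).toNat, Int.toNat_of_nonneg (mul_self_nonneg β)⟩
  have hD0 : 0 < D := by
    have := mul_self_pos.2 hβ0
    omega
  have hDq : (D : ℚ) = β * β := by exact_mod_cast hD
  have hF : ∀ n : ℕ, 1 ≤ n → β * q.eval (n : ℤ) = D * g n := by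
    intro n hn
    have h1 := congrArg (eval (n : ℚ)) hq
    rw [eval_smul, ← hg n hn, show (n : ℚ) = algebraMap ℤ ℚ (n : ℤ) by simp, eval_map_algebraMap,
      aeval_algebraMap_apply_eq_algebraMap_eval] at h1
    have h2 : (β : ℚ) * ((q.eval (n : ℤ) : ℤ) : ℚ) = D * g n := by
      rw [hDq, mul_assoc]
      congr 1
    exact_mod_cast h2
  obtain ⟨d, hd⟩ : ∃ d, f.natDegree = d + 1 :=
    ⟨f.natDegree - 1, by have := natDegree_pos_iff_degree_pos.2 hf; omega⟩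
  have hf0 : f ≠ 0 := by rintro rfl; simp at hd
  have hlc : f.coeff (d + 1) ≠ 0 := by rw [← hd]; exact leadingCoeff_ne_zero.2 hf0
  have hdeg : (f.map (algebraMap ℚ ℝ)).natDegree ≤ d + 1 := natDegree_map_le.trans hd.le
  have hev : ∀ n : ℕ, 1 ≤ n → (g n : ℝ) = (f.map (algebraMap ℚ ℝ)).eval (n : ℝ) := by
    intro n hn
    rw [show (n : ℝ) = algebraMap ℚ ℝ (n : ℚ) by simp, eval_map_algebraMap,
      aeval_algebraMap_apply_eq_algebraMap_eval, ← hg n hn]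
    simp
  have hpos : 0 < f.coeff (d + 1) := by
    refine lt_of_le_of_ne (not_lt.1 fun hneg => ?_) hlc.symm
    have h1 : 0 < (-f.map (algebraMap ℚ ℝ)).coeff (d + 1) := by
      rw [coeff_neg, coeff_map, neg_pos]
      simpa using hneg
    obtain ⟨n, ⟨h2, -⟩, h3⟩ := ((growth_poly _ (d + 1) (by rwa [natDegree_neg]) h1).and
      (eventually_ge_atTop 1)).exists
    rw [eval_neg, ← hev n h3] at h2
    have h4 : (0 : ℝ) < n := by exact_mod_cast h3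
    have h5 : 0 < (-f.map (algebraMap ℚ ℝ)).coeff (d + 1) / 2 * (n : ℝ) ^ (d + 1) := by positivity
    have h6 : (0 : ℝ) ≤ g n := by positivity
    linarith
  have hA : ((β * q.coeff (d + 1) : ℤ) : ℚ) = D * f.coeff (d + 1) := by
    have h1 := congrArg (fun r => r.coeff (d + 1)) hq
    simp only [coeff_map, coeff_smul] at h1
    rw [hDq, mul_assoc]
    push_cast
    congr 1
  have hDq0 : (0 : ℚ) < D := by exact_mod_cast hD0
  have hA0 : 0 < β * q.coeff (d + 1) := by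
    have : (0 : ℚ) < ((β * q.coeff (d + 1) : ℤ) : ℚ) := by rw [hA]; positivity
    exact_mod_cast this
  obtain ⟨A, hA'⟩ : ∃ A : ℕ, (A : ℤ) = β * q.coeff (d + 1) := ⟨_, Int.toNat_of_nonneg hA0.le⟩
  refine ⟨⟨b, d, D, A, f.map (algebraMap ℚ ℝ), g, hb, hD0, by omega, hdeg, ?_, hev, ?_⟩, rfl, rfl⟩
  · have h1 : f.coeff (d + 1) = A / D := by
      rw [eq_div_iff hDq0.ne', mul_comm, ← hA, ← hA']
      simp
    rw [coeff_map, h1]
    simp
  · intro Q n k hn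
    have h1 := sub_dvd_eval_sub ((n + k * (D * Q) : ℕ) : ℤ) (n : ℤ) q
    have h2 : (D : ℤ) * Q ∣ D * ((g (n + k * (D * Q)) : ℤ) - g n) := by
      rw [mul_sub, ← hF _ (by omega), ← hF n hn, ← mul_sub]
      have h0 : (D : ℤ) * Q ∣ ((n + k * (D * Q) : ℕ) : ℤ) - (n : ℤ) := ⟨k, by push_cast; ring⟩
      exact (h0.trans h1).mul_left _
    have h3 := Int.dvd_of_mul_dvd_mul_left (by exact_mod_cast hD0.ne') h2
    exact (Nat.modEq_iff_dvd.2 h3).symm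

end Pool.Agent.H374Z.SN
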