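import Pool.Agent.H374Z.SN.Cells
import Pool.Agent.Helper923.PNT

/-!
# Growth of the polynomial, primes in long intervals, and the high digits
-/

set_option autoImplicit false

namespace Pool.Agent.H374Z.SN

open Finset Polynomial Filter

theorem growth_poly (Q : ℝ[X]) (k : ℕ) (hQ : Q.natDegree ≤ k) (hc : 0 < Q.coeff k) :
    ∀ᶠ n : ℕ in atTop, Q.coeff k / 2 * (n : ℝ) ^ k ≤ Q.eval (n : ℝ) ∧
      Q.eval (n : ℝ) ≤ 2 * Q.coeff k * (n : ℝ) ^ k := by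
  have h1 : Q.natDegree = k := natDegree_eq_of_le_of_coeff_ne_zero hQ hc.ne'
  have h2 := (isEquivalent_atTop_lead Q).isLittleO.bound (c := 1 / 2) (by norm_num)
  rw [leadingCoeff, h1] at h2
  filter_upwards [tendsto_natCast_atTop_atTop (R := ℝ).eventually h2] with n hn
  have h3 : 0 ≤ Q.coeff k * (n : ℝ) ^ k := by positivity
  simp only [Pi.sub_apply, Real.norm_eq_abs] at hn
  rw [abs_of_nonneg h3, abs_le] at hn
  constructor <;> linarith [hn.1, hn.2]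

/-- growth conditions -/
def PD.Growth (P : PD) (Γ x₀ : ℕ) : Prop :=
  1 ≤ Γ ∧ 1 ≤ x₀ ∧ ∀ n, x₀ ≤ n → n ^ P.d + Γ * P.g n ≤ Γ * P.g (n + 1) ∧
    P.g (n + 1) ≤ P.g n + Γ * n ^ P.d ∧ n ^ (P.d + 1) ≤ Γ * P.g n ∧ P.g n ≤ Γ * n ^ (P.d + 1)

theorem PD.exists_growth (P : PD) : ∃ Γ x₀, P.Growth Γ x₀ := by
  have hA : (0 : ℝ) < P.A := by exact_mod_cast P.hA
  have hD : (0 : ℝ) < P.D := by exact_mod_cast P.hD
  have hc : 0 < P.f.coeff (P.d + 1) := by rw [P.hlc]; positivity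
  obtain ⟨Q, hQ1, hQ2, hQ3⟩ := diff_poly P.f P.d P.hdeg 1
  have hc' : 0 < Q.coeff P.d := by rw [hQ2]; positivity
  set c := P.f.coeff (P.d + 1)
  set c' := Q.coeff P.d
  obtain ⟨Γ, hΓ⟩ := exists_nat_ge (1 + 2 / c + 2 * c + 2 / c' + 2 * c')
  have p1 : 0 < 2 / c := by positivity
  have p2 : 0 < 2 / c' := by positivity
  obtain ⟨x₀, hx₀⟩ := eventually_atTop.1 ((growth_poly P.f _ P.hdeg hc).and
    ((growth_poly Q _ hQ1 hc').and (eventually_ge_atTop 1)))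
  refine ⟨Γ, x₀, ?_, (hx₀ x₀ le_rfl).2.2, fun n hn => ?_⟩
  · have : (1 : ℝ) ≤ Γ := by linarith
    exact_mod_cast this
  obtain ⟨⟨a1, a2⟩, ⟨a3, a4⟩, a5⟩ := hx₀ n hn
  have e1 := P.hg n a5
  have e2 := P.hg (n + 1) (by omega)
  push_cast at e2
  rw [hQ3, ← e1, ← e2] at a3 a4
  rw [← e1] at a1 a2
  have q1 : (0 : ℝ) ≤ (n : ℝ) ^ P.d := by positivity
  have q2 : (0 : ℝ) ≤ (n : ℝ) ^ (P.d + 1) := by positivity
  refine ⟨?_, ?_, ?_, ?_⟩
  · have h1 : (n : ℝ) ^ P.d = 2 / c' * (c' / 2 * (n : ℝ) ^ P.d) := by field_simp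
    have h2 : 2 / c' * (c' / 2 * (n : ℝ) ^ P.d) ≤ Γ * ((P.g (n + 1) : ℝ) - P.g n) :=
      mul_le_mul (by linarith) a3 (by positivity) (by positivity)
    have : (n : ℝ) ^ P.d + Γ * P.g n ≤ Γ * P.g (n + 1) := by linarith
    exact_mod_cast this
  · have h2 : 2 * c' * (n : ℝ) ^ P.d ≤ Γ * (n : ℝ) ^ P.d :=
      mul_le_mul_of_nonneg_right (by linarith) q1
    have : (P.g (n + 1) : ℝ) ≤ P.g n + Γ * (n : ℝ) ^ P.d := by linarith
    exact_mod_cast this
  · have h1 : (n : ℝ) ^ (P.d + 1) = 2 / c * (c / 2 * (n : ℝ) ^ (P.d + 1)) := by field_simp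
    have h2 : 2 / c * (c / 2 * (n : ℝ) ^ (P.d + 1)) ≤ Γ * (P.g n : ℝ) :=
      mul_le_mul (by linarith) a1 (by positivity) (by positivity)
    have : (n : ℝ) ^ (P.d + 1) ≤ Γ * P.g n := by linarith
    exact_mod_cast this
  · have h2 : 2 * c * (n : ℝ) ^ (P.d + 1) ≤ Γ * (n : ℝ) ^ (P.d + 1) :=
      mul_le_mul_of_nonneg_right (by linarith) q2
    have : (P.g n : ℝ) ≤ Γ * (n : ℝ) ^ (P.d + 1) := by linarith
    exact_mod_cast this

namespace PD

variable {P : PD} {Γ x₀ : ℕ}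

theorem Growth.lower (h : P.Growth Γ x₀) {y n : ℕ} (hy : x₀ ≤ y) (hn : y ≤ n) (k : ℕ) :
    Γ * P.g n + k * y ^ P.d ≤ Γ * P.g (n + k) := by
  induction k with
  | zero => simp
  | succ k ih =>
    have h1 := (h.2.2 (n + k) (by omega)).1
    have h2 : y ^ P.d ≤ (n + k) ^ P.d := Nat.pow_le_pow_left (by omega) _
    rw [← add_assoc, Nat.succ_mul]
    omega

theorem Growth.mono (h : P.Growth Γ x₀) {n n' : ℕ} (hn : x₀ ≤ n) (hn' : n ≤ n') :
    P.g n ≤ P.g n' := by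
  obtain ⟨k, rfl⟩ := Nat.exists_eq_add_of_le hn'
  have := h.lower hn le_rfl k
  exact Nat.le_of_mul_le_mul_left (c := Γ) (by omega) h.1

theorem Growth.upper (h : P.Growth Γ x₀) {Y n : ℕ} (hn : x₀ ≤ n) (k : ℕ) (hk : n + k ≤ Y) :
    P.g (n + k) ≤ P.g n + k * (Γ * Y ^ P.d) := by
  induction k with
  | zero => simp
  | succ k ih =>
    have h1 := (h.2.2 (n + k) (by omega)).2.1
    have h2 : Γ * (n + k) ^ P.d ≤ Γ * Y ^ P.d :=
      Nat.mul_le_mul_left _ (Nat.pow_le_pow_left (by omega) _)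
    have h3 := ih (by omega)
    rw [← add_assoc, Nat.succ_mul]
    omega

/-- the integers with prescribed leading digits lie in a short interval -/
theorem Growth.interval (h : P.Growth Γ x₀) {y : ℕ} (hy : x₀ ≤ y) (S : Finset ℕ) (B c : ℕ)
    (hB : 0 < B) (hS : ∀ n ∈ S, y ≤ n ∧ P.g n / B = c) :
    ∃ n₀, y ≤ n₀ ∧ S ⊆ Ico n₀ (n₀ + (Γ * B / y ^ P.d + 1)) := by
  rcases S.eq_empty_or_nonempty with rfl | hne
  · exact ⟨y, le_rfl, empty_subset _⟩
  have h0 := hS _ (S.min'_mem hne)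
  refine ⟨S.min' hne, h0.1, fun n hn => mem_Ico.2 ⟨S.min'_le n hn, ?_⟩⟩
  obtain ⟨k, hk⟩ := Nat.exists_eq_add_of_le (S.min'_le n hn)
  have h1 := h.lower hy h0.1 k
  rw [← hk] at h1
  have h2 := Nat.div_add_mod (P.g n) B
  have h3 := Nat.div_add_mod (P.g (S.min' hne)) B
  have h4 := Nat.mod_lt (P.g n) hB
  rw [(hS n hn).2] at h2
  rw [h0.2] at h3
  have h5 : P.g n ≤ P.g (S.min' hne) + B := by omega
  have h6 := Nat.mul_le_mul_left Γ h5
  rw [mul_add] at h6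
  have h7 : k ≤ Γ * B / y ^ P.d := by
    rw [Nat.le_div_iff_mul_le (pow_pos (by have := h.2.1; omega) _)]
    omega
  omega

end PD

theorem primes_lower (Δ : ℕ) (hΔ : 1 ≤ Δ) : ∃ y₀ : ℕ, ∀ y, y₀ ≤ y →
    (y : ℝ) / (2 * Δ) ≤ ((Ico y (y + y / Δ)).filter Nat.Prime).card * Real.log (2 * y) := by
  have hΔ' : (1 : ℝ) ≤ Δ := by exact_mod_cast hΔ
  set ε : ℝ := 1 / (12 * Δ) with hε
  have hε0 : 0 < ε := by positivity
  have h1 := Pool.Agent.Helper923.PNT.theta_div_tendsto.eventually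
    (Icc_mem_nhds (show 1 - ε < 1 by linarith) (show 1 < 1 + ε by linarith))
  obtain ⟨u₀, hu₀⟩ := eventually_atTop.1 (tendsto_natCast_atTop_atTop (R := ℝ).eventually h1)
  refine ⟨u₀ + 8 * Δ + 2, fun y hy => ?_⟩
  obtain ⟨z, rfl⟩ : ∃ z, y = z + 1 := ⟨y - 1, by omega⟩
  obtain ⟨Y, hY⟩ : ∃ Y, Y = (z + 1) / Δ := ⟨_, rfl⟩
  rw [← hY]
  have hz : (0 : ℝ) < z := by exact_mod_cast (by omega : 0 < z)
  have hzΔ : 8 * (Δ : ℝ) ≤ z := by exact_mod_cast (by omega : 8 * Δ ≤ z)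
  have a1 := (hu₀ z (by omega)).2
  have a2 := (hu₀ (z + Y) (by omega)).1
  rw [div_le_iff₀ hz] at a1
  rw [le_div_iff₀ (by exact_mod_cast (by omega : 0 < z + Y))] at a2
  have hYle : Y ≤ z + 1 := hY ▸ Nat.div_le_self _ _
  have hY1 : (z + 1 : ℝ) < Δ * (Y + 1) := by
    have := Nat.lt_mul_div_succ (z + 1) (show 0 < Δ by omega)
    rw [← hY] at this
    exact_mod_cast this
  have a3 : Chebyshev.theta ((z + Y : ℕ) : ℝ) ≤ Chebyshev.theta (z : ℝ)
      + ((Ico (z + 1) (z + 1 + Y)).filter Nat.Prime).card * Real.log (2 * ((z + 1 : ℕ) : ℝ)) := by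
    unfold Chebyshev.theta
    rw [Nat.floor_natCast, Nat.floor_natCast]
    have e : (Ioc 0 (z + Y)).filter Nat.Prime
        = (Ioc 0 z).filter Nat.Prime ∪ (Ico (z + 1) (z + 1 + Y)).filter Nat.Prime := by
      rw [← filter_union]
      congr 1
      ext x
      simp only [mem_Ioc, mem_union, mem_Ico]
      omega
    rw [e, sum_union]
    · refine add_le_add le_rfl ?_
      rw [← nsmul_eq_mul]
      refine sum_le_card_nsmul _ _ _ fun p hp => ?_
      have h2 := mem_Ico.1 (mem_filter.1 hp).1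
      apply Real.log_le_log (by exact_mod_cast (by omega : 0 < p))
      exact_mod_cast (by omega : p ≤ 2 * (z + 1))
    · rw [disjoint_left]
      intro x hx1 hx2
      have h2 := mem_Ioc.1 (mem_filter.1 hx1).1
      have h3 := mem_Ico.1 (mem_filter.1 hx2).1
      omega
  have hYle' : (Y : ℝ) ≤ z + 1 := by exact_mod_cast hYle
  push_cast at a2 a3 ⊢
  have a4 : (z + 1 : ℝ) / (2 * Δ) ≤ Y - ε * (3 * z + 1) := by
    have h5 : ε * (3 * z + 1) ≤ (z + 1) / (4 * Δ) := by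
      rw [hε, one_div_mul_eq_div, div_le_div_iff₀ (by positivity) (by positivity)]
      nlinarith
    have h6 : (z + 1 : ℝ) / Δ ≤ Y + 1 := by
      rw [div_le_iff₀ (by positivity)]; linarith
    have h7 : (1 : ℝ) ≤ (z + 1) / (4 * Δ) := by
      rw [le_div_iff₀ (by positivity)]; linarith
    have h8 : (z + 1 : ℝ) / Δ = 4 * ((z + 1) / (4 * Δ)) := by field_simp
    have h9 : (z + 1 : ℝ) / (2 * Δ) = 2 * ((z + 1) / (4 * Δ)) := by field_simp; ring
    linarith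
  nlinarith

theorem mem_count {y y' j : ℕ} :
    j ∈ Ico (Nat.count Nat.Prime y) (Nat.count Nat.Prime y') ↔
      Nat.nth Nat.Prime j ∈ Ico y y' := by
  rw [mem_Ico, mem_Ico, Nat.count_le_iff_le_nth Nat.infinite_setOfPred_prime,
    Nat.lt_nth_iff_count_lt Nat.infinite_setOfPred_prime]

theorem card_index_le (y y' : ℕ) (Φ : ℕ → Prop) [DecidablePred Φ] :
    ((Ico (Nat.count Nat.Prime y) (Nat.count Nat.Prime y')).filter
      (fun j => Φ (Nat.nth Nat.Prime j))).card ≤ (((Ico y y').filter Nat.Prime).filter Φ).card := by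
  refine card_le_card_of_injOn (Nat.nth Nat.Prime) (fun j hj => ?_)
    ((Nat.nth_injective Nat.infinite_setOfPred_prime).injOn)
  have := mem_filter.1 (mem_coe.1 hj)
  exact mem_coe.2 (mem_filter.2 ⟨mem_filter.2 ⟨mem_count.1 this.1, Nat.prime_nth_prime j⟩, this.2⟩)

theorem count_sub (y Y : ℕ) : Nat.count Nat.Prime (y + Y) - Nat.count Nat.Prime y
    = ((Ico y (y + Y)).filter Nat.Prime).card := by
  rw [Nat.count_add, Nat.add_sub_cancel_left, card_Ico_filter, Nat.count_eq_card_filter_range]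

theorem exists_kappa (lo hi d : ℕ) (h : lo + d ≤ hi) (κm : ℕ) : ∀ E, lo ≤ E → E ≤ hi + d * κm →
    ∃ κ e', E = e' + κ * d ∧ lo ≤ e' ∧ e' ≤ hi ∧ κ ≤ κm := by
  induction κm with
  | zero => intro E h1 h2; exact ⟨0, E, by simp, h1, by simpa using h2, le_rfl⟩
  | succ k ih =>
    intro E h1 h2
    by_cases h3 : E ≤ hi
    · exact ⟨0, E, by simp, h1, h3, Nat.zero_le _⟩
    · rw [mul_add, mul_one] at h2
      obtain ⟨κ, e', h4, h5, h6, h7⟩ := ih (E - d) (by omega) (by omega)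
      exact ⟨κ + 1, e', by rw [add_mul, one_mul]; omega, h5, h6, by omega⟩

theorem sq_le_two_pow (n : ℕ) (hn : 4 ≤ n) : n * n ≤ 2 ^ n := by
  induction n, hn using Nat.le_induction with
  | base => norm_num
  | succ n hn ih => rw [pow_succ]; nlinarith

end Pool.Agent.H374Z.SN
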