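import Mathlib

/-!
# Moments of digit statistics over all strings of a given length
-/

set_option autoImplicit false

namespace Pool.Agent.H374Z.SN

open Finset

/-- the digit of `z` at position `v` in base `B` -/
def dg (B v z : ℕ) : ℕ := z / B ^ v % B

/-- the sum of the weights of the lowest `l` digits -/
def FF (B : ℕ) (w : ℕ → ℝ) (l c : ℕ) : ℝ := ∑ v ∈ range l, w (dg B v c)

theorem dg_lt {B : ℕ} (hB : 0 < B) (v z : ℕ) : dg B v z < B := Nat.mod_lt _ hB

theorem dg_succ (B v z : ℕ) : dg B (v + 1) z = dg B v (z / B) := by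
  unfold dg
  rw [Nat.div_div_eq_div_mul, pow_succ']

theorem dg_add (B v u z : ℕ) : dg B (u + v) z = dg B v (z / B ^ u) := by
  unfold dg
  rw [Nat.div_div_eq_div_mul, pow_add]

theorem dg_mod (B v l z : ℕ) (h : v < l) : dg B v (z % B ^ l) = dg B v z := by
  unfold dg
  obtain ⟨u, rfl⟩ := Nat.exists_eq_add_of_lt h
  rw [show v + u + 1 = v + (u + 1) by ring, pow_add, Nat.mod_mul_right_div_self,
    Nat.mod_mod_of_dvd _ (dvd_pow_self B (Nat.succ_ne_zero u))]

theorem FF_succ (B : ℕ) (w : ℕ → ℝ) (l c : ℕ) :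
    FF B w (l + 1) c = w (c % B) + FF B w l (c / B) := by
  unfold FF
  rw [sum_range_succ', add_comm]
  simp only [dg_succ]
  simp [dg]

theorem FF_add (B : ℕ) (w : ℕ → ℝ) (u l c : ℕ) :
    FF B w (u + l) c = FF B w u c + FF B w l (c / B ^ u) := by
  unfold FF
  rw [sum_range_add]
  simp only [dg_add]

theorem FF_mod (B : ℕ) (w : ℕ → ℝ) (l c : ℕ) : FF B w l (c % B ^ l) = FF B w l c :=
  sum_congr rfl fun v hv => by rw [dg_mod B v l c (mem_range.1 hv)]

theorem abs_FF_le {B : ℕ} (hB : 0 < B) (w : ℕ → ℝ) (τ : ℝ) (hw : ∀ k < B, |w k| ≤ τ) (l c : ℕ) :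
    |FF B w l c| ≤ l * τ := by
  unfold FF
  refine (abs_sum_le_sum_abs _ _).trans ?_
  calc ∑ v ∈ range l, |w (dg B v c)| ≤ ∑ _v ∈ range l, τ :=
        sum_le_sum fun v _ => hw _ (dg_lt hB v c)
    _ = l * τ := by simp

theorem sum_range_mul' (B n : ℕ) (f : ℕ → ℝ) :
    ∑ c ∈ range (B * n), f c = ∑ c ∈ range n, ∑ k ∈ range B, f (B * c + k) := by
  induction n with
  | zero => simp
  | succ n ih => rw [Nat.mul_succ, sum_range_add, ih, sum_range_succ]

theorem sum_pow_succ {B : ℕ} (hB : 0 < B) (l : ℕ) (f : ℕ → ℕ → ℝ) :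
    ∑ c ∈ range (B ^ (l + 1)), f (c % B) (c / B)
      = ∑ c ∈ range (B ^ l), ∑ k ∈ range B, f k c := by
  rw [pow_succ', sum_range_mul']
  refine sum_congr rfl fun c _ => sum_congr rfl fun k hk => ?_
  have hk' := mem_range.1 hk
  rw [Nat.mul_add_mod, Nat.mod_eq_of_lt hk', Nat.mul_add_div hB, Nat.div_eq_of_lt hk', add_zero]

theorem sum_FF_sq {B : ℕ} (hB : 0 < B) (w : ℕ → ℝ) (hw : ∑ k ∈ range B, w k = 0) (l : ℕ) :
    ∑ c ∈ range (B ^ l), FF B w l c ^ 2
      = (B : ℝ) ^ l * l * (∑ k ∈ range B, w k ^ 2) / B := by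
  have hB' : (B : ℝ) ≠ 0 := by exact_mod_cast hB.ne'
  induction l with
  | zero => simp [FF]
  | succ l ih =>
    simp only [FF_succ]
    rw [sum_pow_succ hB l (fun k c => (w k + FF B w l c) ^ 2)]
    have : ∀ c, ∑ k ∈ range B, (w k + FF B w l c) ^ 2
        = ∑ k ∈ range B, w k ^ 2 + B * FF B w l c ^ 2 := by
      intro c
      have h1 : ∀ k, (w k + FF B w l c) ^ 2
          = w k ^ 2 + 2 * FF B w l c * w k + FF B w l c ^ 2 := fun k => by ring
      simp only [h1, sum_add_distrib, ← mul_sum, hw, sum_const, card_range, nsmul_eq_mul]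
      ring
    simp only [this, sum_add_distrib, ← mul_sum, ih, sum_const, card_range, nsmul_eq_mul]
    push_cast
    field_simp
    ring

/-- the excess of the digit `k` among the lowest `n` digits of `c` -/
noncomputable def TT (B n c k : ℕ) : ℝ :=
  (∑ v ∈ range n, if dg B v c = k then (1 : ℝ) else 0) - n / B

/-- the chi-square statistic -/
noncomputable def chi (B n c : ℕ) : ℝ := ∑ k ∈ range B, TT B n c k ^ 2

theorem sum_TT {B : ℕ} (hB : 0 < B) (n c : ℕ) : ∑ k ∈ range B, TT B n c k = 0 := by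
  have hB' : (B : ℝ) ≠ 0 := by exact_mod_cast hB.ne'
  unfold TT
  rw [sum_sub_distrib, sum_comm]
  have : ∀ v ∈ range n, ∑ k ∈ range B, (if dg B v c = k then (1 : ℝ) else 0) = 1 := by
    intro v _
    rw [sum_ite_eq, if_pos (mem_range.2 (dg_lt hB v c))]
  rw [sum_congr rfl this]
  simp only [sum_const, card_range, nsmul_eq_mul]
  field_simp
  ring

theorem TT_succ (B n c k : ℕ) :
    TT B (n + 1) c k = TT B n (c / B) k + ((if c % B = k then (1 : ℝ) else 0) - 1 / B) := by
  unfold TT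
  rw [sum_range_succ']
  simp only [dg_succ]
  have : dg B 0 c = c % B := by simp [dg]
  rw [this]
  push_cast
  ring

theorem chi_succ {B : ℕ} (hB : 0 < B) (n c : ℕ) :
    chi B (n + 1) c = chi B n (c / B) + 2 * TT B n (c / B) (c % B) + (1 - 1 / B) := by
  have hB' : (B : ℝ) ≠ 0 := by exact_mod_cast hB.ne'
  have hm : c % B ∈ range B := mem_range.2 (Nat.mod_lt _ hB)
  unfold chi
  simp only [TT_succ]
  have h1 : ∀ k, (TT B n (c / B) k + ((if c % B = k then (1 : ℝ) else 0) - 1 / B)) ^ 2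
      = TT B n (c / B) k ^ 2 + 2 * (if c % B = k then TT B n (c / B) k else 0)
        - 2 / B * TT B n (c / B) k + (if c % B = k then (1 - 2 / B : ℝ) else 0)
        + 1 / (B : ℝ) ^ 2 := by
    intro k
    split_ifs <;> ring
  simp only [h1, sum_add_distrib, sum_sub_distrib, ← mul_sum, sum_ite_eq, if_pos hm, sum_TT hB,
    sum_const, card_range, nsmul_eq_mul]
  field_simp
  ring

theorem FF_TT {B : ℕ} (hB : 0 < B) (n c : ℕ) : FF B (TT B n c) n c = chi B n c := by
  have h1 : FF B (TT B n c) n c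
      = ∑ k ∈ range B, TT B n c k * ∑ v ∈ range n, if dg B v c = k then (1 : ℝ) else 0 := by
    simp only [mul_sum]
    rw [sum_comm]
    unfold FF
    refine sum_congr rfl fun v _ => ?_
    simp only [mul_ite, mul_one, mul_zero]
    rw [sum_ite_eq, if_pos (mem_range.2 (dg_lt hB v c))]
  rw [h1]
  have h2 : ∀ k, TT B n c k * (∑ v ∈ range n, if dg B v c = k then (1 : ℝ) else 0)
      = TT B n c k ^ 2 + n / B * TT B n c k := by
    intro k
    have : (∑ v ∈ range n, if dg B v c = k then (1 : ℝ) else 0) = TT B n c k + n / B := by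
      unfold TT; ring
    rw [this]; ring
  simp only [h2, sum_add_distrib, ← mul_sum, sum_TT hB]
  simp [chi]

theorem chi_mod (B n c : ℕ) : chi B n (c % B ^ n) = chi B n c := by
  unfold chi TT
  refine sum_congr rfl fun k _ => ?_
  congr 2
  exact sum_congr rfl fun v hv => by rw [dg_mod B v n c (mem_range.1 hv)]

theorem sum_chi {B : ℕ} (hB : 0 < B) (n : ℕ) :
    ∑ c ∈ range (B ^ n), chi B n c = (B : ℝ) ^ n * (n * (1 - 1 / B)) := by
  induction n with
  | zero => simp [chi, TT]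
  | succ n ih =>
    simp only [chi_succ hB]
    rw [sum_pow_succ hB n (fun k c => chi B n c + 2 * TT B n c k + (1 - 1 / B))]
    simp only [sum_add_distrib, ← mul_sum, sum_TT hB, sum_const, card_range, nsmul_eq_mul, ih]
    push_cast
    ring

theorem sum_chi_var {B : ℕ} (hB : 0 < B) (n : ℕ) :
    ∑ c ∈ range (B ^ n), (chi B n c - n * (1 - 1 / B)) ^ 2 ≤ (B : ℝ) ^ n * (2 * n ^ 2 / B) := by
  have hB' : (0 : ℝ) < B := by exact_mod_cast hB
  induction n with
  | zero => simp [chi, TT]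
  | succ n ih =>
    simp only [chi_succ hB]
    rw [sum_pow_succ hB n (fun k c => (chi B n c + 2 * TT B n c k + (1 - 1 / B)
      - ((n + 1 : ℕ) : ℝ) * (1 - 1 / B)) ^ 2)]
    have h1 : ∀ c, ∑ k ∈ range B, (chi B n c + 2 * TT B n c k + (1 - 1 / B)
        - ((n + 1 : ℕ) : ℝ) * (1 - 1 / B)) ^ 2
        = B * (chi B n c - n * (1 - 1 / B)) ^ 2 + 4 * chi B n c := by
      intro c
      have h2 : ∀ k, (chi B n c + 2 * TT B n c k + (1 - 1 / B)
          - ((n + 1 : ℕ) : ℝ) * (1 - 1 / B)) ^ 2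
          = (chi B n c - n * (1 - 1 / B)) ^ 2
            + 4 * (chi B n c - n * (1 - 1 / B)) * TT B n c k + 4 * TT B n c k ^ 2 := by
        intro k; push_cast; ring
      simp only [h2, sum_add_distrib, ← mul_sum, sum_TT hB, sum_const, card_range, nsmul_eq_mul]
      unfold chi
      ring
    simp only [h1, sum_add_distrib, ← mul_sum, sum_chi hB]
    have h3 : (0 : ℝ) ≤ (B : ℝ) ^ n := by positivity
    have h4 : (n : ℝ) * (1 - 1 / B) ≤ n := by
      have : (0 : ℝ) ≤ n * (1 / B) := by positivity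
      linarith
    have h5 : (B : ℝ) * ((B : ℝ) ^ n * (2 * n ^ 2 / B)) = (B : ℝ) ^ n * (2 * n ^ 2) := by
      field_simp
    have h6 : (B : ℝ) ^ (n + 1) * (2 * ((n + 1 : ℕ) : ℝ) ^ 2 / B)
        = (B : ℝ) ^ n * (2 * (n + 1) ^ 2) := by
      push_cast; field_simp; ring
    rw [h6]
    have h7 := mul_le_mul_of_nonneg_left ih hB'.le
    rw [h5] at h7
    have h8 := mul_le_mul_of_nonneg_left h4 h3
    nlinarith

theorem card_small_chi {B : ℕ} (hB : 2 ≤ B) (n : ℕ) (hn : 0 < n) :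
    (((range (B ^ n)).filter (fun c => chi B n c < n / 4)).card : ℝ)
      ≤ (B : ℝ) ^ n * (32 / B) := by
  have hB0 : 0 < B := by omega
  have hB' : (2 : ℝ) ≤ B := by exact_mod_cast hB
  have hn' : (0 : ℝ) < n := by exact_mod_cast hn
  have h1 := sum_chi_var hB0 n
  have h2 : (((range (B ^ n)).filter (fun c => chi B n c < n / 4)).card : ℝ) * ((n : ℝ) ^ 2 / 16)
      ≤ ∑ c ∈ range (B ^ n), (chi B n c - n * (1 - 1 / B)) ^ 2 := by
    calc (((range (B ^ n)).filter (fun c => chi B n c < n / 4)).card : ℝ) * ((n : ℝ) ^ 2 / 16)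
        = ∑ _c ∈ (range (B ^ n)).filter (fun c => chi B n c < n / 4), (n : ℝ) ^ 2 / 16 := by simp
      _ ≤ ∑ c ∈ (range (B ^ n)).filter (fun c => chi B n c < n / 4),
          (chi B n c - n * (1 - 1 / B)) ^ 2 := by
        refine sum_le_sum fun c hc => ?_
        have h3 := (mem_filter.1 hc).2
        have h4 : (1 : ℝ) / B ≤ 1 / 2 := by
          apply div_le_div_of_nonneg_left <;> linarith
        have h5 : (n : ℝ) / 4 ≤ n * (1 - 1 / B) - chi B n c := by nlinarith
        nlinarith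
      _ ≤ _ := sum_le_sum_of_subset_of_nonneg (filter_subset _ _) (fun _ _ _ => sq_nonneg _)
  have h3 : (B : ℝ) ^ n * (2 * n ^ 2 / B) = (B : ℝ) ^ n * (32 / B) * ((n : ℝ) ^ 2 / 16) := by
    field_simp; ring
  rw [h3] at h1
  exact le_of_mul_le_mul_right (h2.trans h1) (by positivity)

end Pool.Agent.H374Z.SN
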