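import Pool.Agent.H374Z.SN.Grow

/-!
# The three ranges of digits
-/

set_option autoImplicit false

namespace Pool.Agent.H374Z.SN

open Finset

namespace PD

variable {P : PD} {Γ x₀ : ℕ}

theorem Growth.len_bounds (h : P.Growth Γ x₀) {y Z B : ℕ} (hy : x₀ ≤ y) (hZ : 1 ≤ Z)
    (hB : Z * y ^ P.d ≤ B) : Z ≤ Γ * B / y ^ P.d + 1 ∧
      ((Γ * B / y ^ P.d + 1 : ℕ) : ℝ) ≤ 2 * Γ * (B / (y : ℝ) ^ P.d) := by
  have hy0 : 0 < y ^ P.d := pow_pos (by have := h.2.1; omega) _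
  have hy0' : (0 : ℝ) < (y : ℝ) ^ P.d := by exact_mod_cast hy0
  have h1 : Z ≤ Γ * B / y ^ P.d := by
    rw [Nat.le_div_iff_mul_le hy0]
    exact hB.trans (Nat.le_mul_of_pos_left _ h.1)
  refine ⟨by omega, ?_⟩
  have h2 : ((Γ * B / y ^ P.d : ℕ) : ℝ) ≤ Γ * (B / (y : ℝ) ^ P.d) := by
    refine Nat.cast_div_le.trans (le_of_eq ?_)
    push_cast; ring
  have h3 : (1 : ℝ) ≤ ((Γ * B / y ^ P.d : ℕ) : ℝ) := by exact_mod_cast hZ.trans h1
  push_cast [Nat.cast_add]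
  linarith

theorem Growth.high (h : P.Growth Γ x₀) {y Z B : ℕ} (hy : x₀ ≤ y) (hZ : 2 ≤ Z)
    (hB : Z * y ^ P.d ≤ B) (S : Finset ℕ) (c : ℕ)
    (hS : ∀ n ∈ S, y ≤ n ∧ n.Prime ∧ P.g n / B = c) :
    (S.card : ℝ) ≤ 2 * cBT * Γ * (B / (y : ℝ) ^ P.d) / Real.log Z := by
  have hy0 : 0 < y ^ P.d := pow_pos (by have := h.2.1; omega) _
  have hB0 : 0 < B := lt_of_lt_of_le (Nat.mul_pos (by omega) hy0) hB
  obtain ⟨n₀, -, hsub⟩ := h.interval hy S B c hB0 (fun n hn => ⟨(hS n hn).1, (hS n hn).2.2⟩)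
  obtain ⟨l1, l2⟩ := h.len_bounds hy (by omega) hB
  set N := Γ * B / y ^ P.d + 1
  have h1 : S.card ≤ ((Ico n₀ (n₀ + N)).filter Nat.Prime).card :=
    card_le_card fun n hn => mem_filter.2 ⟨hsub hn, (hS n hn).2.1⟩
  have h2 := bt_interval n₀ N (hZ.trans l1)
  have hlog : 0 < Real.log Z := Real.log_pos (by exact_mod_cast hZ)
  have h3 : Real.log Z ≤ Real.log N :=
    Real.log_le_log (by exact_mod_cast (by omega : 0 < Z)) (by exact_mod_cast l1)
  have hC := one_le_cBT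
  calc (S.card : ℝ) ≤ ((Ico n₀ (n₀ + N)).filter Nat.Prime).card := by exact_mod_cast h1
    _ ≤ cBT * N / Real.log N := h2
    _ ≤ cBT * (2 * Γ * (B / (y : ℝ) ^ P.d)) / Real.log Z := by gcongr
    _ = _ := by ring

/-- the exponent of the differencing parameter -/
def GG (P : PD) : ℕ := 8 * 2 ^ P.d

/-- an auxiliary exponent -/
def aa (P : PD) : ℕ := 12 + 4 * P.d + P.GG * P.d

/-- the exponent of the size of the primes -/
def LL (P : PD) : ℕ := P.aa + 4 + P.GG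

/-- the ratio between the position and the length of a chunk -/
def gg (P : PD) : ℕ := (P.d + 1) * P.LL

/-- the constant in the non-divisibility condition -/
def cst (P : PD) : ℕ := (P.d + 1).factorial * P.A

/-- the constant in the cell bound -/
def CC (P : PD) : ℕ := 1 + (48 * P.b + 2) + 80 * (P.D * P.b)

theorem Growth.cells (h : P.Growth Γ x₀) {y l s₀ : ℕ} (hy : x₀ ≤ y)
    (hZ4 : 4 ≤ P.b ^ l) (hZc : P.cst < P.b ^ l) (hZD : P.D ≤ P.b ^ l) (hl : P.d + 1 ≤ l)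
    (hy1 : P.b ^ l < y) (hy2 : y ≤ (P.b ^ l) ^ (P.aa + 5 + P.GG))
    (hs₀ : (P.b ^ l) ^ (P.aa + 1 + P.GG) * y ^ P.d ≤ P.b ^ s₀)
    (s e : ℕ) (hs : P.cst ^ 2 ≤ s) (hge : P.gg * e ≤ s) (hse : s + e ≤ s₀) (π x : ℕ)
    (S : Finset ℕ) (hS : ∀ n ∈ S, y ≤ n ∧ n.Prime ∧ P.g n / P.b ^ s₀ = π ∧
      P.g n / P.b ^ s % P.b ^ e = x) :
    (S.card : ℝ) ≤ P.CC * (2 * cBT * Γ * ((P.b ^ s₀ : ℕ) / (y : ℝ) ^ P.d) / Real.log (P.b ^ l : ℕ))
      / (P.b : ℝ) ^ e := by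
  have hb := P.hb
  have hb0 : 0 < P.b := by omega
  have hb1 : 1 < P.b := by omega
  have hb' : (0 : ℝ) < P.b := by exact_mod_cast hb0
  have hbe : (0 : ℝ) < (P.b : ℝ) ^ e := by positivity
  obtain ⟨Z, hZ⟩ : ∃ Z, Z = P.b ^ l := ⟨_, rfl⟩
  rw [← hZ] at hZ4 hZc hZD hy1 hy2 hs₀ ⊢
  have hZpow : ∀ k, Z ^ k = P.b ^ (k * l) := fun k => by rw [hZ, ← pow_mul, mul_comm]
  have hZ0 : 0 < Z := by omega
  have hZ' : (4 : ℝ) ≤ Z := by exact_mod_cast hZ4
  have hlog : 0 < Real.log Z := Real.log_pos (by linarith)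
  have hlogZ : Real.log Z ≤ Z := (Real.log_le_sub_one_of_pos (by linarith)).trans (by linarith)
  have hC := one_le_cBT
  have hΓ : (1 : ℝ) ≤ Γ := by exact_mod_cast h.1
  have hy0 : (0 : ℝ) < (y : ℝ) ^ P.d := by
    have : (0 : ℝ) < y := by exact_mod_cast (by omega : 0 < y)
    positivity
  have hG8 : 8 ≤ P.GG := Nat.le_mul_of_pos_right _ (by positivity)
  have hG2 : 2 * 2 ^ P.d ≤ P.GG := Nat.mul_le_mul_right _ (by norm_num)
  set ρ : ℝ := ((P.b ^ s₀ : ℕ) : ℝ) / (y : ℝ) ^ P.d with hρ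
  have hρ0 : 0 ≤ ρ := by positivity
  have hM0 : 0 ≤ 2 * cBT * Γ * ρ / Real.log Z := by positivity
  have hfin : ∀ c : ℕ, c ≤ P.CC → (S.card : ℝ) ≤ c * (2 * cBT * Γ * ρ / Real.log Z) / (P.b : ℝ) ^ e →
      (S.card : ℝ) ≤ P.CC * (2 * cBT * Γ * ρ / Real.log Z) / (P.b : ℝ) ^ e := by
    intro c hc h1
    refine h1.trans ?_
    gcongr
  by_cases hhigh : (P.d * (P.aa + 5 + P.GG) + 1) * l ≤ s
  · -- high digits
    have h1 : Z * y ^ P.d ≤ P.b ^ s := by
      calc Z * y ^ P.d ≤ Z * (Z ^ (P.aa + 5 + P.GG)) ^ P.d := by gcongr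
        _ = Z ^ (P.d * (P.aa + 5 + P.GG) + 1) := by rw [← pow_mul, pow_succ', mul_comm P.d]
        _ ≤ P.b ^ s := by rw [hZpow]; exact Nat.pow_le_pow_right hb0 hhigh
    obtain ⟨r, hr⟩ := Nat.exists_eq_add_of_le hse
    refine hfin 1 (by unfold CC; omega) ?_
    rw [card_eq_sum_card_fiberwise (f := fun n => P.g n / P.b ^ s / P.b ^ e % P.b ^ r)
      (t := range (P.b ^ r)) (fun n _ => mem_coe.2 (mem_range.2 (Nat.mod_lt _ (pow_pos hb0 r))))]
    push_cast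
    have h2 : ∀ v ∈ range (P.b ^ r),
        ((S.filter (fun n => P.g n / P.b ^ s / P.b ^ e % P.b ^ r = v)).card : ℝ)
          ≤ 2 * cBT * Γ * ((P.b ^ s : ℕ) / (y : ℝ) ^ P.d) / Real.log Z := by
      intro v _
      refine h.high hy (by omega) h1 _ (P.b ^ e * (P.b ^ r * π + v) + x) fun n hn => ?_
      obtain ⟨hn1, hn2⟩ := mem_filter.1 hn
      obtain ⟨k1, k2, k3, k4⟩ := hS n hn1
      refine ⟨k1, k2, ?_⟩
      have e1 := Nat.div_add_mod (P.g n / P.b ^ s) (P.b ^ e)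
      have e2 := Nat.div_add_mod (P.g n / P.b ^ s / P.b ^ e) (P.b ^ r)
      have e3 : P.g n / P.b ^ s / P.b ^ e / P.b ^ r = π := by
        rw [Nat.div_div_eq_div_mul, Nat.div_div_eq_div_mul, ← pow_add, ← pow_add, ← add_assoc, ← hr,
          k3]
      rw [e3, hn2] at e2
      rw [← e1, k4, ← e2]
    refine (sum_le_sum h2).trans (le_of_eq ?_)
    rw [sum_const, card_range, nsmul_eq_mul, hρ, hr]
    push_cast
    rw [pow_add, pow_add]
    field_simp
  have hel : e ≤ l := by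
    have h1 : (P.d * (P.aa + 5 + P.GG) + 1) ≤ P.gg := by
      unfold gg LL
      have : P.d ≤ P.aa := by unfold aa; omega
      nlinarith
    have h2 := Nat.mul_le_mul_right l h1
    have h3 : 0 < P.gg := by omega
    exact Nat.le_of_mul_le_mul_left (c := P.gg) (by omega) h3
  have hbeZ : P.b ^ e ≤ Z := hZ ▸ Nat.pow_le_pow_right hb0 hel
  have hbeZ' : (P.b : ℝ) ^ e ≤ Z := by exact_mod_cast hbeZ
  have hZN : Z ^ (P.aa + 1 + P.GG) * y ^ P.d ≤ P.b ^ s₀ := hs₀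
  obtain ⟨n₀, hn₀, hsub⟩ := h.interval hy S (P.b ^ s₀) π (pow_pos hb0 _)
    (fun n hn => ⟨(hS n hn).1, (hS n hn).2.2.1⟩)
  obtain ⟨l1, l2⟩ := h.len_bounds hy (Nat.pow_pos hZ0) hZN
  rw [← hρ] at l2
  set N := Γ * P.b ^ s₀ / y ^ P.d + 1
  have hcard : (S.card : ℝ) ≤ (((Ico n₀ (n₀ + N)).filter Nat.Prime).filter
      (fun n => P.g n / P.b ^ s % P.b ^ e = x)).card := by
    exact_mod_cast card_le_card fun n hn =>
      mem_filter.2 ⟨mem_filter.2 ⟨hsub hn, (hS n hn).2.1⟩, (hS n hn).2.2.2⟩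
  have hNM : (N : ℝ) / Real.log Z ≤ 2 * cBT * Γ * ρ / Real.log Z := by
    gcongr
    refine l2.trans ?_
    have : 0 ≤ Γ * ρ := by positivity
    nlinarith
  by_cases hmid : (2 + P.GG * P.d) * l ≤ s + e
  · -- middle digits
    obtain ⟨κ, e', k1, k2, k3, k4⟩ := exists_kappa ((2 + P.GG * P.d) * l) (P.aa * l) P.d
      (by unfold aa; nlinarith) ((P.aa + 1) * l) (s + e) hmid (by
        have h1 : s + e ≤ (P.d * (P.aa + 5 + P.GG) + 2) * l := by
          rw [not_le] at hhigh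
          nlinarith
        refine h1.trans ?_
        rw [← mul_assoc, ← add_mul]
        refine Nat.mul_le_mul_right _ ?_
        have : P.aa = 12 + 4 * P.d + P.GG * P.d := rfl
        nlinarith)
    have key := P.count_mid s e x κ e' (Z ^ P.GG) n₀ N Z (1 / (Z : ℝ) ^ 8) k1 (pow_pos hZ0 _)
      (by
        calc (P.d + 1).factorial * P.A * P.b ^ e * (Z ^ P.GG) ^ P.d
            ≤ P.cst * Z * (Z ^ P.GG) ^ P.d := by unfold cst; gcongr
          _ < Z * Z * (Z ^ P.GG) ^ P.d := by gcongr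
          _ = Z ^ (2 + P.GG * P.d) := by rw [pow_add, pow_mul, sq]
          _ ≤ P.b ^ e' := by rw [hZpow]; exact Nat.pow_le_pow_right hb0 k2)
      (by
        refine le_trans ?_ l1
        have h1 : P.b ^ e' ≤ Z ^ P.aa := by rw [hZpow]; exact Nat.pow_le_pow_right hb0 k3
        calc P.D * P.b ^ e' * Z ^ P.GG ≤ Z * Z ^ P.aa * Z ^ P.GG := by gcongr
          _ = _ := by ring)
      (by
        refine le_trans ?_ l1
        have h1 : P.b ^ κ ≤ Z ^ (P.aa + 1) := by rw [hZpow]; exact Nat.pow_le_pow_right hb0 k4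
        calc Z ^ P.GG * P.b ^ κ ≤ Z ^ P.GG * Z ^ (P.aa + 1) := by gcongr
          _ = _ := by ring)
      (by positivity)
      (by rw [div_le_one (by positivity)]; exact one_le_pow₀ (by linarith))
      (by
        unfold GG
        push_cast
        rw [one_div, inv_pow, ← pow_mul, mul_inv_cancel₀ (by positivity)])
      hZ0 (by omega)
    refine hfin (48 * P.b + 2) (by unfold CC; omega) ((hcard.trans key).trans ?_)
    have h7 : (Z : ℝ) ^ 7 ≤ N := by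
      have : Z ^ 7 ≤ N := (Nat.pow_le_pow_right hZ0 (by omega)).trans l1
      exact_mod_cast this
    have hN0 : (0 : ℝ) ≤ N := by positivity
    have t1 : 48 * (P.b : ℝ) * N / ((P.b : ℝ) ^ e * Real.log ((Z : ℝ) + 1))
        ≤ 48 * P.b * (N / Real.log Z) / (P.b : ℝ) ^ e := by
      have : Real.log Z ≤ Real.log ((Z : ℝ) + 1) := Real.log_le_log (by linarith) (by linarith)
      calc 48 * (P.b : ℝ) * N / ((P.b : ℝ) ^ e * Real.log ((Z : ℝ) + 1))
          ≤ 48 * (P.b : ℝ) * N / ((P.b : ℝ) ^ e * Real.log Z) := by gcongr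
        _ = _ := by field_simp
    have t2 : (4 + 16 * (1 / (Z : ℝ) ^ 8) * N) * (Z : ℝ) ^ 4
        ≤ 2 * (N / Real.log Z) / (P.b : ℝ) ^ e := by
      have u1 : (4 + 16 * (1 / (Z : ℝ) ^ 8) * N) * (Z : ℝ) ^ 4 ≤ 2 * (N / Z) / Z := by
        rw [show 2 * ((N : ℝ) / Z) / Z = 2 * N / (Z * Z) by field_simp,
          le_div_iff₀ (by positivity)]
        have e1 : (4 + 16 * (1 / (Z : ℝ) ^ 8) * N) * (Z : ℝ) ^ 4 * (Z * Z)
            = 4 * (Z : ℝ) ^ 6 + 16 / (Z : ℝ) ^ 2 * N := by field_simp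
        have e2 : 4 * (Z : ℝ) ^ 6 ≤ (Z : ℝ) ^ 7 := by
          rw [pow_succ' (Z : ℝ) 6]; gcongr
        have e3 : 16 / (Z : ℝ) ^ 2 ≤ 1 := by
          rw [div_le_one (by positivity)]; nlinarith
        have e4 := mul_le_mul_of_nonneg_right e3 hN0
        linarith
      refine u1.trans ?_
      gcongr
    refine (add_le_add t1 t2).trans ?_
    rw [← add_div, ← add_mul]
    push_cast
    gcongr
  · -- low digits
    rw [not_le] at hmid
    set Q := P.D * P.b ^ (s + e) with hQ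
    have hQ0 : 0 < Q := Nat.mul_pos P.hD (pow_pos hb0 _)
    have hQ1 : Q ≤ Z ^ (3 + P.GG * P.d) := by
      have h1 : P.b ^ (s + e) ≤ Z ^ (2 + P.GG * P.d) := by
        rw [hZpow]; exact Nat.pow_le_pow_right hb0 hmid.le
      calc Q ≤ Z * Z ^ (2 + P.GG * P.d) := Nat.mul_le_mul hZD h1
        _ = _ := by ring
    have hU : Z ^ P.GG ≤ N / Q := by
      rw [Nat.le_div_iff_mul_le hQ0]
      refine le_trans ?_ l1
      calc Z ^ P.GG * Q ≤ Z ^ P.GG * Z ^ (3 + P.GG * P.d) := by gcongr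
        _ = Z ^ (P.GG + (3 + P.GG * P.d)) := by rw [← pow_add]
        _ ≤ _ := Nat.pow_le_pow_right hZ0 (by unfold aa; omega)
    have hZU : Z ≤ N / Q := (Nat.le_self_pow (by omega) Z).trans hU
    have hQN : Q * (N / Q + 1) ≤ 2 * N := by
      have h1 := Nat.mul_div_le N Q
      have h2 : Q ≤ Q * (N / Q) := Nat.le_mul_of_pos_right _ (by omega)
      rw [mul_add, mul_one]; omega
    have key := P.count_low s e x ((P.b ^ e) ^ (2 ^ P.d)) n₀ N (N / Q + 1) (by positivity)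
      (by omega) (by omega)
      (by
        have h1 : (P.b ^ e) ^ (2 ^ P.d) ≤ Z ^ P.GG :=
          (Nat.pow_le_pow_left hbeZ _).trans (Nat.pow_le_pow_right hZ0 (by omega))
        omega)
      (Nat.lt_mul_div_succ N hQ0).le
      (by
        have h1 : P.cst * ((P.b ^ e) ^ (2 ^ P.d)) ^ P.d < P.b ^ s := by
          apply lt_of_pow_lt_pow_left₀ 2 (Nat.zero_le _)
          have h2 : (((P.b ^ e) ^ (2 ^ P.d)) ^ P.d) ^ 2 ≤ P.b ^ s := by
            rw [← pow_mul, ← pow_mul, ← pow_mul]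
            refine Nat.pow_le_pow_right hb0 (le_trans ?_ hge)
            rw [mul_comm e]
            refine Nat.mul_le_mul_right _ ?_
            unfold gg LL
            nlinarith [Nat.mul_le_mul_right P.d hG2]
          have h3 : P.cst ^ 2 < P.b ^ s := lt_of_le_of_lt hs (Nat.lt_pow_self hb1)
          rw [mul_pow, sq (P.b ^ s)]
          exact Nat.mul_lt_mul_of_lt_of_le h3 h2 (pow_pos hb0 _)
        calc (P.d + 1).factorial * P.A * P.b ^ e * ((P.b ^ e) ^ (2 ^ P.d)) ^ P.d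
            = P.cst * ((P.b ^ e) ^ (2 ^ P.d)) ^ P.d * P.b ^ e := by unfold cst; ring
          _ < P.b ^ s * P.b ^ e := by gcongr
          _ = _ := by rw [pow_add])
      le_rfl
    refine hfin (80 * (P.D * P.b)) (by unfold CC; omega) ((hcard.trans key).trans ?_)
    have t1 : Real.log Z ≤ Real.log ((N / Q + 1 : ℕ) : ℝ) :=
      Real.log_le_log (by linarith) (by exact_mod_cast (by omega : Z ≤ N / Q + 1))
    have t2 : ((Q * (N / Q + 1) : ℕ) : ℝ) ≤ 2 * (2 * Γ * ρ) := by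
      have : ((Q * (N / Q + 1) : ℕ) : ℝ) ≤ 2 * N := by exact_mod_cast hQN
      linarith
    calc cBT * (P.D * P.b) / Real.log ((N / Q + 1 : ℕ) : ℝ)
          * (40 * ((Q * (N / Q + 1) : ℕ) : ℝ) / (P.b : ℝ) ^ e)
        ≤ cBT * (P.D * P.b) / Real.log Z * (40 * (2 * (2 * Γ * ρ)) / (P.b : ℝ) ^ e) := by gcongr
      _ = _ := by push_cast; field_simp; ring

end PD

end Pool.Agent.H374Z.SN
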