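import Mathlib

/-!
# Van der Corput differencing for polynomial phases
-/

set_option autoImplicit false

namespace Pool.Agent.H374Z.SN

open Finset Polynomial

/-- the additive character `e(x)` -/
noncomputable def ee (x : ℝ) : ℂ := Complex.exp (Complex.I * ((2 * Real.pi * x : ℝ) : ℂ))

theorem norm_ee (x : ℝ) : ‖ee x‖ = 1 := Complex.norm_exp_I_mul_ofReal _

theorem ee_add (x y : ℝ) : ee (x + y) = ee x * ee y := by
  unfold ee
  rw [← Complex.exp_add]
  congr 1
  push_cast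
  ring

theorem ee_zero : ee 0 = 1 := by simp [ee]

theorem ee_conj (x : ℝ) : (starRingEnd ℂ) (ee x) = ee (-x) := by
  unfold ee
  rw [← Complex.exp_conj]
  congr 1
  simp only [map_mul, Complex.conj_I, Complex.conj_ofReal]
  push_cast
  ring

theorem ee_sub (x y : ℝ) : ee x * (starRingEnd ℂ) (ee y) = ee (x - y) := by
  rw [ee_conj, ← ee_add, sub_eq_add_neg]

theorem ee_int (z : ℤ) : ee z = 1 := by
  unfold ee
  rw [← Complex.exp_int_mul_two_pi_mul_I z]
  congr 1
  push_cast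
  ring

theorem ee_nat_mul (k : ℕ) (x : ℝ) : ee (k * x) = ee x ^ k := by
  induction k with
  | zero => simp [ee_zero]
  | succ k ih => rw [pow_succ, ← ih, ← ee_add]; push_cast; ring_nf

theorem ee_re (x : ℝ) : (ee x).re = Real.cos (2 * Real.pi * x) := by
  unfold ee
  rw [mul_comm, Complex.exp_ofReal_mul_I_re]

theorem norm_ee_sub_one (c T : ℝ) (h : ∀ z : ℤ, 1 / T ≤ |c - z|) : 4 / T ≤ ‖ee c - 1‖ := by
  have h1 : ee c = ee (c - round c) := by
    rw [sub_eq_add_neg, ee_add, ← Int.cast_neg, ee_int, mul_one]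
  have h2 := abs_sub_round c
  rw [h1]
  unfold ee
  rw [Complex.norm_exp_I_mul_ofReal_sub_one, Real.norm_eq_abs, abs_mul, abs_two]
  have h3 : |2 * Real.pi * (c - round c) / 2| = Real.pi * |c - round c| := by
    rw [show 2 * Real.pi * (c - round c) / 2 = Real.pi * (c - round c) by ring, abs_mul,
      abs_of_pos Real.pi_pos]
  have h4 := Real.mul_abs_le_abs_sin (x := 2 * Real.pi * (c - round c) / 2) (by
    rw [h3]; nlinarith [Real.pi_pos])
  rw [h3] at h4
  have h5 : 2 / Real.pi * (Real.pi * |c - round c|) = 2 * |c - round c| := by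
    field_simp
  rw [h5] at h4
  have h6 := h (round c)
  have h7 : 4 / T = 4 * (1 / T) := by ring
  linarith

theorem geom_bound (c c₀ T : ℝ) (hT : 0 < T) (h : ∀ z : ℤ, 1 / T ≤ |c - z|) (n : ℕ) :
    ‖∑ k ∈ range n, ee (c * k + c₀)‖ ≤ T := by
  have h1 := norm_ee_sub_one c T h
  have h2 : ∑ k ∈ range n, ee (c * k + c₀) = (∑ k ∈ range n, ee c ^ k) * ee c₀ := by
    rw [sum_mul]
    exact sum_congr rfl fun k _ => by rw [ee_add, mul_comm c, ee_nat_mul]
  rw [h2, norm_mul, norm_ee, mul_one]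
  have h3 := geom_sum_mul (ee c) n
  have h4 : ‖∑ k ∈ range n, ee c ^ k‖ * ‖ee c - 1‖ ≤ 2 := by
    rw [← norm_mul, h3]
    refine (norm_sub_le _ _).trans ?_
    rw [norm_pow, norm_ee, one_pow, norm_one]
    norm_num
  have h5 : ‖∑ k ∈ range n, ee c ^ k‖ * (4 / T) ≤ 2 :=
    (mul_le_mul_of_nonneg_left h1 (norm_nonneg _)).trans h4
  rw [← mul_div_assoc, div_le_iff₀ hT] at h5
  linarith

theorem shift_sum (F : ℤ → ℂ) (n A v : ℤ) (hF : ∀ x, x ∉ Ico (0 : ℤ) n → F x = 0) (h0 : 0 ≤ v)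
    (hv : v ≤ A) : ∑ x ∈ Ico (-A) n, F (x + v) = ∑ y ∈ Ico (0 : ℤ) n, F y := by
  rw [sum_Ico_add']
  symm
  refine sum_subset (fun x hx => ?_) (fun x _ hx => hF x hx)
  rw [mem_Ico] at hx ⊢
  constructor <;> omega

/-- van der Corput's inequality with shifts in an arithmetic progression -/
theorem vdc (a : ℤ → ℂ) (n K σ : ℕ) (N E : ℝ) (hs : ∀ x, x ∉ Ico (0 : ℤ) n → a x = 0)
    (ha : ∀ x, ‖a x‖ ≤ 1) (hn : (n : ℝ) ≤ N) (hKσ : (K : ℝ) * σ ≤ N) (hK : 0 < K) (hE : 0 ≤ E)
    (h : ∀ t : ℕ, 1 ≤ t → t < K →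
      ‖∑ x ∈ Ico (0 : ℤ) n, a (x + t * σ) * (starRingEnd ℂ) (a x)‖ ≤ E) :
    ‖∑ x ∈ Ico (0 : ℤ) n, a x‖ ^ 2 ≤ 2 * N * (N / K + E) := by
  have hK' : (0 : ℝ) < K := by exact_mod_cast hK
  have hN : 0 ≤ N := (Nat.cast_nonneg n).trans hn
  have hle : ∀ t : ℕ, t < K → (t : ℤ) * σ ≤ K * σ := fun t ht =>
    mul_le_mul_of_nonneg_right (by exact_mod_cast ht.le) (by positivity)
  set A := Ico (-((K : ℤ) * σ)) n with hA
  have h1 : (K : ℂ) * ∑ x ∈ Ico (0 : ℤ) n, a x = ∑ x ∈ A, ∑ t ∈ range K, a (x + t * σ) := by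
    rw [sum_comm, sum_congr rfl (fun t ht => shift_sum a n _ _ hs (by positivity)
      (hle t (mem_range.1 ht)))]
    simp
  have hcard : (A.card : ℝ) ≤ 2 * N := by
    have : A.card = n + K * σ := by
      rw [hA, Int.card_Ico]
      have : (n : ℤ) - -((K : ℤ) * σ) = ((n + K * σ : ℕ) : ℤ) := by push_cast; ring
      rw [this, Int.toNat_natCast]
    rw [this]; push_cast; linarith
  have hpair : ∀ t t' : ℕ, t' < t → t < K →
      ‖∑ x ∈ A, a (x + t * σ) * (starRingEnd ℂ) (a (x + t' * σ))‖ ≤ E := by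
    intro t t' h1 h2
    obtain ⟨u, rfl⟩ := Nat.exists_eq_add_of_le h1.le
    have := shift_sum (fun y => a (y + u * σ) * (starRingEnd ℂ) (a y)) n (K * σ) (t' * σ)
      (fun x hx => by simp only [hs x hx, map_zero, mul_zero]) (by positivity)
      (hle t' (by omega))
    have e : ∑ x ∈ A, a (x + (t' + u : ℕ) * σ) * (starRingEnd ℂ) (a (x + t' * σ))
        = ∑ x ∈ A, a (x + t' * σ + u * σ) * (starRingEnd ℂ) (a (x + t' * σ)) :=
      sum_congr rfl fun x _ => by congr 2; push_cast; ring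
    rw [e, this]
    exact h u (by omega) (by omega)
  have hall : ∀ t ∈ range K, ∀ t' ∈ range K,
      ‖∑ x ∈ A, a (x + t * σ) * (starRingEnd ℂ) (a (x + t' * σ))‖
        ≤ (if t = t' then N else 0) + E := by
    intro t ht t' ht'
    rcases lt_trichotomy t t' with h1 | h1 | h1
    · have := hpair t' t h1 (mem_range.1 ht')
      rw [if_neg h1.ne, zero_add, ← Complex.norm_conj, map_sum]
      refine le_trans (le_of_eq ?_) this
      congr 1
      exact sum_congr rfl fun x _ => by rw [map_mul, Complex.conj_conj, mul_comm]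
    · subst h1
      have := shift_sum (fun y => a y * (starRingEnd ℂ) (a y)) n (K * σ) (t * σ)
        (fun x hx => by simp only [hs x hx, zero_mul]) (by positivity) (hle t (mem_range.1 ht))
      rw [this, if_pos rfl]
      refine (norm_sum_le _ _).trans ?_
      have h2 : ∑ x ∈ Ico (0 : ℤ) n, ‖a x * (starRingEnd ℂ) (a x)‖ ≤ ∑ _x ∈ Ico (0 : ℤ) n, (1 : ℝ) := by
        refine sum_le_sum fun x _ => ?_
        rw [norm_mul, Complex.norm_conj]
        exact mul_le_one₀ (ha x) (norm_nonneg _) (ha x)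
      simp only [sum_const, Int.card_Ico, sub_zero, Int.toNat_natCast, nsmul_eq_mul, mul_one] at h2
      linarith
    · rw [if_neg h1.ne', zero_add]
      exact hpair t t' h1 (mem_range.1 ht)
  have h2 : ∑ x ∈ A, ‖∑ t ∈ range K, a (x + t * σ)‖ ^ 2 ≤ K * N + K ^ 2 * E := by
    have e1 : ((∑ x ∈ A, ‖∑ t ∈ range K, a (x + t * σ)‖ ^ 2 : ℝ) : ℂ)
        = ∑ t ∈ range K, ∑ t' ∈ range K,
          ∑ x ∈ A, a (x + t * σ) * (starRingEnd ℂ) (a (x + t' * σ)) := by
      push_cast
      simp only [← Complex.mul_conj', map_sum, sum_mul_sum]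
      rw [sum_comm]
      exact sum_congr rfl fun t _ => sum_comm
    have e2 : ∑ x ∈ A, ‖∑ t ∈ range K, a (x + t * σ)‖ ^ 2
        = ‖((∑ x ∈ A, ‖∑ t ∈ range K, a (x + t * σ)‖ ^ 2 : ℝ) : ℂ)‖ := by
      rw [Complex.norm_real, Real.norm_eq_abs, abs_of_nonneg (sum_nonneg fun _ _ => sq_nonneg _)]
    rw [e2, e1]
    refine (norm_sum_le _ _).trans ?_
    refine (sum_le_sum fun t ht => (norm_sum_le _ _).trans
      (sum_le_sum fun t' ht' => hall t ht t' ht')).trans (le_of_eq ?_)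
    simp only [sum_add_distrib, sum_ite_eq, sum_const, card_range, nsmul_eq_mul]
    rw [sum_congr rfl (fun t ht => if_pos ht)]
    simp only [sum_const, card_range, nsmul_eq_mul]
    ring
  have h3 : (K : ℝ) * ‖∑ x ∈ Ico (0 : ℤ) n, a x‖ ≤ ∑ x ∈ A, ‖∑ t ∈ range K, a (x + t * σ)‖ := by
    refine le_trans (le_of_eq ?_) (norm_sum_le _ _)
    rw [← h1, norm_mul, Complex.norm_natCast]
  have h4 : ((K : ℝ) * ‖∑ x ∈ Ico (0 : ℤ) n, a x‖) ^ 2 ≤ 2 * N * (K * N + K ^ 2 * E) := by
    refine (pow_le_pow_left₀ (by positivity) h3 2).trans (sq_sum_le_card_mul_sum_sq.trans ?_)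
    exact mul_le_mul hcard h2 (sum_nonneg fun _ _ => sq_nonneg _) (by positivity)
  have h5 : 2 * N * (K * N + K ^ 2 * E) = K ^ 2 * (2 * N * (N / K + E)) := by field_simp
  rw [h5, mul_pow] at h4
  exact le_of_mul_le_mul_left h4 (by positivity)

theorem diff_poly (P : ℝ[X]) (d : ℕ) (hP : P.natDegree ≤ d + 1) (h : ℝ) :
    ∃ Q : ℝ[X], Q.natDegree ≤ d ∧ Q.coeff d = (d + 1) * h * P.coeff (d + 1) ∧
      ∀ x, Q.eval x = P.eval (x + h) - P.eval x := by
  refine ⟨taylor h P - P, ?_, ?_, fun x => by rw [eval_sub, taylor_eval]⟩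
  · rw [natDegree_le_iff_coeff_eq_zero]
    intro n hn
    rw [coeff_sub, taylor_coeff, sub_eq_zero]
    have h1 : (hasseDeriv n P).natDegree = 0 := by
      have := natDegree_hasseDeriv_le P n
      omega
    rw [eq_C_of_natDegree_eq_zero h1, eval_C, hasseDeriv_coeff]
    simp
  · rw [coeff_sub, taylor_coeff]
    have h1 : (hasseDeriv d P).natDegree ≤ 1 := by
      have := natDegree_hasseDeriv_le P d
      omega
    rw [eq_X_add_C_of_natDegree_le_one h1]
    simp only [eval_add, eval_mul, eval_C, eval_X, hasseDeriv_coeff, zero_add, Nat.choose_self,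
      Nat.cast_one, one_mul]
    rw [add_comm 1 d, Nat.choose_succ_self_right]
    push_cast
    ring

theorem sum_Ico_int (n : ℕ) (F : ℤ → ℂ) : ∑ x ∈ Ico (0 : ℤ) n, F x = ∑ k ∈ range n, F k := by
  induction n with
  | zero => simp
  | succ n ih =>
    rw [sum_range_succ, ← ih]
    push_cast
    rw [← insert_Ico_right_eq_Ico_add_one (by positivity), sum_insert (by simp), add_comm]

/-- **Weyl-van der Corput bound.** -/
theorem weyl (K σ : ℕ) (N T : ℝ) (hK : 0 < K) (hT : 0 < T) (hKσ : (K : ℝ) * σ ≤ N)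
    (hTK : T * K ≤ N) (d : ℕ) : ∀ (P : ℝ[X]) (η : ℝ), P.natDegree ≤ d + 1 → 0 < η → η ≤ 1 →
      1 ≤ K * η ^ (2 ^ d) →
      (∀ t : ℕ, 1 ≤ t → t ≤ K ^ d → ∀ z : ℤ,
        1 / T ≤ |((d + 1).factorial : ℝ) * P.coeff (d + 1) * σ ^ d * t - z|) →
      ∀ (u : ℝ) (n : ℕ), (n : ℝ) ≤ N → ‖∑ k ∈ range n, ee (P.eval (u + k))‖ ≤ 4 * η * N := by
  have hK' : (0 : ℝ) < K := by exact_mod_cast hK
  have hN : 0 ≤ N := le_trans (by positivity) hKσ
  induction d with
  | zero =>
    intro P η hP hη _ hKη h u n _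
    have h1 := geom_bound (P.coeff 1) (P.coeff 1 * u + P.coeff 0) T hT
      (fun z => by simpa using h 1 le_rfl (by simp) z) n
    have h2 : ∑ k ∈ range n, ee (P.eval (u + k))
        = ∑ k ∈ range n, ee (P.coeff 1 * k + (P.coeff 1 * u + P.coeff 0)) := by
      refine sum_congr rfl fun k _ => ?_
      conv_lhs => rw [eq_X_add_C_of_natDegree_le_one hP]
      simp only [eval_add, eval_mul, eval_C, eval_X]
      congr 1; ring
    rw [h2]
    refine h1.trans ?_
    simp only [pow_zero, pow_one] at hKη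
    have h3 : T * 1 ≤ T * (K * η) := by gcongr
    have h4 : T * K * η ≤ N * η := by gcongr
    nlinarith [mul_nonneg hN hη.le]
  | succ d ih =>
    intro P η hP hη hη1 hKη h u n hn
    let a : ℤ → ℂ := fun x => if x ∈ Ico (0 : ℤ) n then ee (P.eval (u + x)) else 0
    have e1 : ∑ k ∈ range n, ee (P.eval (u + k)) = ∑ x ∈ Ico (0 : ℤ) n, a x := by
      rw [sum_Ico_int]
      refine sum_congr rfl fun k hk => ?_
      have : (k : ℤ) ∈ Ico (0 : ℤ) n := mem_Ico.2 ⟨by positivity, by exact_mod_cast mem_range.1 hk⟩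
      simp only [a, if_pos this, Int.cast_natCast]
    have hη2 : 1 ≤ K * (η ^ 2) ^ (2 ^ d) := by
      rw [← pow_mul, ← pow_succ']; exact hKη
    have key := vdc a n K σ N (4 * η ^ 2 * N) (fun x hx => if_neg hx)
      (fun x => by
        simp only [a]
        split_ifs
        · exact (norm_ee _).le
        · simp) hn hKσ hK (by positivity) (by
      intro t ht1 htK
      obtain ⟨Q, hQ1, hQ2, hQ3⟩ := diff_poly P (d + 1) hP (t * σ)
      have e2 : ∑ x ∈ Ico (0 : ℤ) n, a (x + t * σ) * (starRingEnd ℂ) (a x)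
          = ∑ k ∈ range (n - t * σ), ee (Q.eval (u + k)) := by
        rw [sum_Ico_int]
        symm
        have hsub : range (n - t * σ) ⊆ range n := range_mono (Nat.sub_le _ _)
        rw [← sum_subset hsub]
        · refine sum_congr rfl fun k hk => ?_
          have hk' := mem_range.1 hk
          have m1 : (k : ℤ) ∈ Ico (0 : ℤ) n := mem_Ico.2 ⟨by positivity, by omega⟩
          have m2 : (k : ℤ) + t * σ ∈ Ico (0 : ℤ) n := mem_Ico.2 ⟨by positivity, by
            have : k + t * σ < n := by omega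
            exact_mod_cast this⟩
          simp only [a, if_pos m1, if_pos m2]
          rw [ee_sub, hQ3]
          congr 3
          push_cast; ring
        · intro k _ hk
          have m2 : (k : ℤ) + t * σ ∉ Ico (0 : ℤ) n := by
            intro hm
            have h1 := (mem_Ico.1 hm).2
            have h2 : k + t * σ < n := by exact_mod_cast h1
            exact hk (mem_range.2 (by omega))
          simp only [a, if_neg m2, zero_mul]
      rw [e2]
      refine ih Q (η ^ 2) hQ1 (by positivity) (pow_le_one₀ hη.le hη1) hη2 ?_ u _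
        (le_trans (by exact_mod_cast Nat.sub_le _ _) hn)
      intro t' ht' ht'K z
      have := h (t * t') (Nat.mul_pos ht1 ht') (by
        rw [pow_succ']; exact Nat.mul_le_mul htK.le ht'K) z
      refine this.trans (le_of_eq ?_)
      rw [hQ2, Nat.factorial_succ (d + 1)]
      congr 2
      push_cast
      ring)
    rw [e1]
    apply (abs_le_of_sq_le_sq' _ (by positivity)).2
    refine key.trans ?_
    have h1 : η ^ (2 ^ (d + 1)) ≤ η ^ 2 :=
      pow_le_pow_of_le_one hη.le hη1 (Nat.le_self_pow (Nat.succ_ne_zero d) 2)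
    have h2 : N / K ≤ η ^ 2 * N := by
      rw [div_le_iff₀ hK']
      have h3 : 1 ≤ K * η ^ 2 := hKη.trans (by gcongr)
      nlinarith
    have h3 : 0 ≤ η ^ 2 * N * N := by positivity
    nlinarith

end Pool.Agent.H374Z.SN
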